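import Pool.Agent.K3h8.KS.Generic
import Pool.Agent.R905.Div

/-!
# Objects of pure parity with a Kimura finite symmetric or exterior power
-/

set_option autoImplicit false
set_option linter.unusedSectionVars false
set_option linter.unusedSimpArgs false
set_option backward.isDefEq.respectTransparency false
set_option backward.defeqAttrib.useBackward true

open CategoryTheory Limits MonoidalCategory
open Pool.Agent.Y112.SR Pool.Agent.Y112.KD Pool.Agent.Y112.SC Pool.Agent.R905
open Pool.Agent.Y116.MT (tr)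

namespace Pool.Agent.K3h8.KS

universe v u w

section

variable {C : Type u} [Category.{v} C] [Preadditive C] [Linear ℚ C] [MonoidalCategory C]
  [MonoidalPreadditive C] [MonoidalLinear ℚ C] [SymmetricCategory C]
  [RightRigidCategory C]

/-- Contracting the second factor of a tensor product of (anti)symmetrizers. -/
lemma asym_of_tensor (hU : UnitQ C) {η θ : ℚ} (hθ : θ * θ = 1) (A B : C) (n : ℕ)
    (h : asym η A n ⊗ₘ asym θ B n = 0)
    (hB : Pool.Agent.TH829.Kim.F (trq hU B) θ n (fun _ => 1) ≠ 0) :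
    asym η A n = 0 := by
  have h1 := tensor_ff (asym η A n) n (gg θ n (fun _ : Fin n => (1 : End B))) (by
    have h2 : gg θ n (fun _ : Fin n => (1 : End B)) = (n.factorial : ℚ) • asym θ B n := by
      rw [gg]
      have h3 : Dn n (fun _ : Fin n => 𝟙 B) = 𝟙 _ := by
        clear hB h
        induction n with
        | zero => rfl
        | succ n ih => rw [Dn_succ, ih, id_tensorHom_id]
      have h4 : Dn n (fun i : Fin n => ((fun _ : Fin n => (1 : End B)) i : B ⟶ B)) = 𝟙 _ := h3
      rw [h4, Category.id_comp]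
    rw [h2, MonoidalCategory.tensorHom_def, MonoidalLinear.whiskerLeft_smul, Linear.comp_smul,
      ← MonoidalCategory.tensorHom_def, h, smul_zero])
  rw [ff_gg hU hθ, MonoidalCategory.tensorHom_def, MonoidalLinear.whiskerLeft_smul,
    Linear.comp_smul] at h1
  have h2 := congrArg (fun z => (Pool.Agent.TH829.Kim.F (trq hU B) θ n (fun _ => 1))⁻¹ • z) h1
  simp only [smul_smul, inv_mul_cancel₀ hB, one_smul, smul_zero, whiskerLeft_id,
    Category.comp_id] at h2
  have h3 : asym η A n = (ρ_ _).inv ≫ (asym η A n ▷ 𝟙_ C) ≫ (ρ_ _).hom := by simp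
  rw [h3, h2]
  simp

lemma tr_one (hU : UnitQ C) (E : C) : tr (𝟙 E) = trq hU E (1 : End E) • 𝟙 _ :=
  trq_spec hU (1 : End E)

end

section

variable {C : Type u} [Category.{v} C] [Preadditive C] [Linear ℚ C] [MonoidalCategory C]
  [MonoidalPreadditive C] [MonoidalLinear ℚ C] [SymmetricCategory C]
  [RightRigidCategory C] [IsIdempotentComplete C] {K : Type w} [Field K]
  (R : SuperRealisation C K)

lemma par_tp {E : C} {d : K} (hE : R.par E = d • 𝟙 _) (n : ℕ) :
    R.par (tp E n) = (d ^ n) • 𝟙 _ := by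
  induction n with
  | zero =>
    rw [pow_zero, one_smul]
    exact R.par_unit
  | succ n ih =>
    rw [par_tensor_eq R ih hE, pow_succ]

lemma par_retract {T S : C} {d : K} (hT : R.par T = d • 𝟙 _) (i : S ⟶ T) (r : T ⟶ S)
    (h : i ≫ r = 𝟙 S) : R.par S = d • 𝟙 _ := by
  have h1 : R.H.map i ≫ R.H.map r = 𝟙 _ := by
    rw [← Functor.map_comp, h, CategoryTheory.Functor.map_id]
  have h2 : R.par S = R.par S ≫ R.H.map i ≫ R.H.map r := by rw [h1, Category.comp_id]
  rw [h2, ← Category.assoc, ← R.par_natural, hT, Linear.comp_smul, Category.comp_id,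
    Linear.smul_comp, h1]

/-- An object of pure parity, of dimension zero and without nontrivial homologically trivial
idempotents is zero. -/
lemma id_eq_zero_of_trq (hU : UnitQ C) {P : C} {d : ℚ} (hd : d * d = 1)
    (hP : R.par P = (d : K) • 𝟙 _) (hnil : HomNil R P) (h : trq hU P (1 : End P) = 0) :
    𝟙 P = 0 := by
  have h0 := R.finite P
  rw [trq_one R hU d hP] at h
  have hd' : d ≠ 0 := fun h => by simp [h] at hd
  have h1 : (Module.finrank K (R.H.obj P) : ℚ) = 0 := (mul_eq_zero.1 h).resolve_left hd'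
  have h2 : Module.finrank K (R.H.obj P) = 0 := by exact_mod_cast h1
  apply hnil.id_eq_zero
  rw [Module.finrank_zero_iff] at h2
  exact ModuleCat.isZero_of_subsingleton _

include R in
lemma trq_asym (hU : UnitQ C) {η : ℚ} (hη : η * η = 1) (E : C) (k : ℕ) :
    trq hU (tp E (k + 2)) (asym η E (k + 2)) =
      cD (trq hU E (1 : End E)) η k * trq hU (tp E (k + 1)) (asym η E (k + 1)) := by
  have h1 := trq_ptr R hU (M := tp E (k + 1)) (N := E) (asym η E (k + 2))
  rw [ptr_asym hη (tr_one hU E) k] at h1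
  have h2 : trq hU (tp E (k + 1)) (((((k + 1 : ℕ) : ℚ) + 1)⁻¹ *
      (trq hU E (1 : End E) + η * ((k + 1 : ℕ) : ℚ))) •
      asym η E (k + 1) : tp E (k + 1) ⟶ tp E (k + 1)) =
      ((((k + 1 : ℕ) : ℚ) + 1)⁻¹ * (trq hU E (1 : End E) + η * ((k + 1 : ℕ) : ℚ))) *
        trq hU (tp E (k + 1)) (asym η E (k + 1)) :=
    (trq hU (tp E (k + 1))).map_smul _ _
  rw [h2] at h1
  exact h1.symm

include R in
lemma trq_asym_one (hU : UnitQ C) (η : ℚ) (E : C) :
    trq hU (tp E 1) (asym η E 1) = trq hU E (1 : End E) := by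
  have h1 := trq_comm' R hU (λ_ E).hom (λ_ E).inv
  have h2 : (λ_ E).hom ≫ (λ_ E).inv = 𝟙 (tp E 1) := by simp
  have h3 : (λ_ E).inv ≫ (λ_ E).hom = 𝟙 E := by simp
  rw [h2, h3] at h1
  rw [asym_one]
  exact h1

include R in
lemma trq_asym_prod (hU : UnitQ C) {η : ℚ} (hη : η * η = 1) (E : C) (m : ℕ) :
    trq hU (tp E (m + 1)) (asym η E (m + 1)) =
      (∏ k ∈ Finset.range m, cD (trq hU E (1 : End E)) η k) * trq hU E (1 : End E) := by
  induction m with
  | zero => rw [trq_asym_one R hU]; simp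
  | succ m ih => rw [trq_asym R hU hη, ih, Finset.prod_range_succ]; ring

/-- If the square of `S` has vanishing (anti)symmetric part then the braiding is a scalar. -/
lemma sw_scalar {τ : ℚ} (hτ : τ * τ = 1) {S : C} (h : asym τ S 2 = 0) (Q : C) :
    sw Q S = (-τ) • 𝟙 _ := by
  have h1 : asym τ S 2 = (2 : ℚ)⁻¹ • (𝟙 _ + τ • sw (tp S 0) S) := by
    rw [asym_succ, asym_one]
    simp only [id_whiskerRight, Category.id_comp, Category.comp_id]
    norm_num
  rw [h1] at h
  have h2 : 𝟙 _ + τ • sw (tp S 0) S = 0 :=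
    (smul_eq_zero.1 h).resolve_left (by norm_num)
  have h3 : sw (tp S 0) S = (-τ) • 𝟙 _ := by
    have h4 : τ • (𝟙 _ + τ • sw (tp S 0) S) = 0 := by rw [h2, smul_zero]
    rw [smul_add, smul_smul, hτ, one_smul] at h4
    rw [neg_smul]
    exact (neg_eq_of_add_eq_zero_right h4).symm
  have h5 : (β_ S S).hom = (-τ) • 𝟙 _ := by
    have e1 : (β_ S S).hom = (λ_ (S ⊗ S)).inv ≫ (α_ (𝟙_ C) S S).inv ≫ sw (tp S 0) S ≫
        (α_ (𝟙_ C) S S).hom ≫ (λ_ (S ⊗ S)).hom := by
      rw [sw]
      simp
    rw [e1, h3]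
    simp only [Linear.smul_comp, Linear.comp_smul, Category.id_comp]
    simp
  rw [sw, h5, MonoidalLinear.whiskerLeft_smul, MonoidalCategory.whiskerLeft_id,
    Linear.smul_comp, Linear.comp_smul, Category.id_comp, Iso.hom_inv_id]

include R in
/-- Lowering the vanishing power of an object of dimension `-τ`. -/
lemma asym_two (hU : UnitQ C) {τ : ℚ} (hτ : τ * τ = 1) {S : C}
    (hS : trq hU S (1 : End S) = -τ) : ∀ n : ℕ, asym τ S n = 0 → asym τ S 2 = 0 := by
  have hdown : ∀ n : ℕ, asym τ S (n + 3) = 0 → asym τ S (n + 2) = 0 := by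
    intro n h
    have h1 := ptr_asym hτ (tr_one hU S) (n + 1)
    rw [h, hS] at h1
    have h2 : ptr (0 : tp S (n + 2) ⊗ S ⟶ tp S (n + 2) ⊗ S) = 0 := (ptrL _ _).map_zero
    rw [h2] at h1
    have h3 : ((((n + 1 + 1 : ℕ) : ℚ) + 1)⁻¹ * (-τ + τ * ((n + 1 + 1 : ℕ) : ℚ))) ≠ 0 := by
      have hτ' : τ ≠ 0 := fun h => by simp [h] at hτ
      have e1 : -τ + τ * ((n + 1 + 1 : ℕ) : ℚ) = τ * (n + 1 : ℚ) := by push_cast; ring
      rw [e1]
      have e2 : (0 : ℚ) < (n : ℚ) + 1 := by positivity
      have e3 : (0 : ℚ) < (((n + 1 + 1 : ℕ) : ℚ) + 1) := by positivity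
      exact mul_ne_zero (inv_ne_zero e3.ne') (mul_ne_zero hτ' e2.ne')
    exact (smul_eq_zero.1 h1.symm).resolve_left h3
  intro n
  induction n using Nat.strong_induction_on with
  | _ n ih =>
    intro h
    rcases n with - | - | - | n
    · exact asym_mono hτ S (asym_mono hτ S h)
    · exact asym_mono hτ S h
    · exact h
    · exact ih (n + 2) (by omega) (hdown n h)

include R in
/-- The next power of an object whose power has dimension one. -/
lemma next_power (hU : UnitQ C) {E S : C} {d : ℚ} (hd : d * d = 1)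
    (hE : R.par E = (d : K) • 𝟙 _) (hnil : HomNil R E) {η : ℚ} (hη : η * η = 1) (m : ℕ)
    (i : S ⟶ tp E (m + 1)) (r : tp E (m + 1) ⟶ S) (hir : i ≫ r = 𝟙 S)
    (hri : r ≫ i = asym η E (m + 1)) {τ : ℚ} (hτ : τ * τ = 1)
    (hS : trq hU S (1 : End S) = -τ) (h2 : asym τ S 2 = 0)
    (hD : cD (trq hU E (1 : End E)) η m = 0) : asym η E (m + 2) = 0 := by
  set a' := asym η E (m + 2) with ha'
  have hab1 : (asym η E (m + 1) ▷ E) ≫ a' = a' := (absorb hη E (m + 1)).1
  have hab2 : a' ≫ (asym η E (m + 1) ▷ E) = a' := (absorb hη E (m + 1)).2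
  have haa : a' ≫ a' = a' := asym_idem hη E (m + 2)
  set y : E ⊗ S ⟶ E ⊗ S := (β_ E S).hom ≫ (i ▷ E) ≫ a' ≫ (r ▷ E) ≫ (β_ E S).inv with hy
  have hyy : y ≫ y = y := by
    rw [hy]
    simp only [Category.assoc, Iso.inv_hom_id_assoc]
    rw [← comp_whiskerRight_assoc, hri, reassoc_of% hab2, reassoc_of% haa]
  -- `y` is determined by its contraction
  have h3 : (-τ) • y = ptr y ▷ S := by
    rw [← ptr_sw_conj, sw_scalar hτ h2]
    have e1 : ((-τ) • 𝟙 ((E ⊗ S) ⊗ S)) ≫ (y ▷ S) ≫ ((-τ) • 𝟙 ((E ⊗ S) ⊗ S)) = y ▷ S := by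
      rw [Linear.smul_comp, Linear.comp_smul, Linear.comp_smul, smul_smul, neg_mul_neg, hτ,
        one_smul, Category.id_comp, Category.comp_id]
    rw [e1, ← hS]
    have := ptr_tensor y (𝟙 S) _ (tr_one hU S)
    rw [tensorHom_id] at this
    exact this.symm
  set z : E ⟶ E := ptr y with hz
  have hττ : (-τ) * (-τ) = 1 := by rw [neg_mul_neg, hτ]
  have hτ0 : -τ ≠ 0 := fun h => by rw [h] at hττ; norm_num at hττ
  have hy' : y = (-τ) • (z ▷ S) := by rw [← h3, smul_smul, hττ, one_smul]
  have hzS : (z ≫ z) ▷ S = y := by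
    rw [comp_whiskerRight, ← h3, Linear.smul_comp, Linear.comp_smul, hyy, smul_smul, hττ,
      one_smul]
  have hzz : z ≫ z = (-τ) • z := by
    have e1 := ptr_tensor (z ≫ z) (𝟙 S) _ (tr_one hU S)
    rw [tensorHom_id, hzS, ← hz, hS] at e1
    calc z ≫ z = ((-τ) * (-τ)) • (z ≫ z) := by rw [hττ, one_smul]
      _ = (-τ) • ((-τ) • (z ≫ z)) := by rw [smul_smul]
      _ = (-τ) • z := by rw [← e1]
  set e0 : E ⟶ E := (-τ) • z with he0
  have hee : e0 ≫ e0 = e0 := by
    rw [he0, Linear.smul_comp, Linear.comp_smul, hzz, smul_smul, smul_smul]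
    congr 1
    linear_combination (-τ) * hτ
  -- the trace
  have htr : trq hU E (e0 : End E) = 0 := by
    have e1 : trq hU E (e0 : End E) = (-τ) * trq hU E (z : End E) :=
      (trq hU E).map_smul _ _
    have e2 : trq hU E (z : End E) = trq hU (E ⊗ S) y := trq_ptr R hU y
    have e3 : trq hU (E ⊗ S) y = trq hU (tp E (m + 2)) a' := by
      have f1 := trq_comm' R hU ((β_ E S).hom ≫ (i ▷ E) ≫ a') ((r ▷ E) ≫ (β_ E S).inv)
      have f2 : ((β_ E S).hom ≫ (i ▷ E) ≫ a') ≫ ((r ▷ E) ≫ (β_ E S).inv) = y := by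
        rw [hy]; simp only [Category.assoc]
      have f3 : ((r ▷ E) ≫ (β_ E S).inv) ≫ ((β_ E S).hom ≫ (i ▷ E) ≫ a') = a' := by
        simp only [Category.assoc, Iso.inv_hom_id_assoc]
        rw [← comp_whiskerRight_assoc, hri, hab1]
      rw [f2, f3] at f1
      exact f1
    rw [e1, e2, e3, ha', trq_asym R hU hη, hD, zero_mul, mul_zero]
  obtain ⟨P, j, q, hjq, hqj⟩ := IsIdempotentComplete.idempotents_split E e0 hee
  have hP : 𝟙 P = 0 := by
    refine id_eq_zero_of_trq R hU hd (par_retract R hE j q hjq) (hnil.retract j q hjq) ?_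
    have f1 := trq_comm' R hU j q
    rw [hjq, hqj] at f1
    rw [← htr]
    exact f1
  have he00 : e0 = 0 := by
    rw [← hqj]
    have : q = 0 := by rw [← Category.comp_id q, hP, comp_zero]
    rw [this, zero_comp]
  have hz0 : z = 0 := (smul_eq_zero.1 (he0.symm.trans he00)).resolve_left hτ0
  have hy0 : y = 0 := by rw [hy', hz0, MonoidalPreadditive.zero_whiskerRight, smul_zero]
  have h4 : a' = (r ▷ E) ≫ (β_ E S).inv ≫ y ≫ (β_ E S).hom ≫ (i ▷ E) := by
    rw [hy]
    simp only [Category.assoc, Iso.inv_hom_id_assoc]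
    rw [← comp_whiskerRight_assoc, ← comp_whiskerRight, hri, hab2, hab1]
  rw [h4, hy0]
  simp

lemma prod_cD {η : ℚ} (m : ℕ) :
    (∏ k ∈ Finset.range m, cD (-(((m + 1 : ℕ) : ℚ) * η)) η k) * ((m + 1 : ℕ) : ℚ) =
      (-η) ^ m := by
  have h1 : ∀ k ∈ Finset.range m, cD (-(((m + 1 : ℕ) : ℚ) * η)) η k =
      (-η) * ((((m - 1 - k : ℕ) : ℚ) + 1) / ((k : ℚ) + 2)) := by
    intro k hk
    rw [Finset.mem_range] at hk
    rw [cD]
    have e1 : ((m - 1 - k : ℕ) : ℚ) = (m : ℚ) - 1 - k := by
      rw [Nat.cast_sub (by omega), Nat.cast_sub (by omega)]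
      norm_num
    rw [e1]
    push_cast
    have e2 : (k : ℚ) + 2 ≠ 0 := by positivity
    have e3 : (k : ℚ) + 1 + 1 ≠ 0 := by positivity
    field_simp
    ring
  rw [Finset.prod_congr rfl h1, Finset.prod_mul_distrib, Finset.prod_const, Finset.card_range,
    Finset.prod_div_distrib, Finset.prod_range_reflect (fun j : ℕ => ((j : ℚ) + 1)) m]
  have h2 : ∏ k ∈ Finset.range m, ((k : ℚ) + 2) =
      (∏ k ∈ Finset.range m, ((k : ℚ) + 1)) * ((m : ℚ) + 1) := by
    have h3 := Finset.prod_range_succ' (fun k : ℕ => ((k : ℚ) + 1)) m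
    rw [Finset.prod_range_succ] at h3
    rw [h3]
    push_cast
    rw [zero_add, mul_one]
    exact Finset.prod_congr rfl fun k _ => by ring
  have h4 : (∏ k ∈ Finset.range m, ((k : ℚ) + 1)) ≠ 0 :=
    Finset.prod_ne_zero_iff.2 fun k _ => by positivity
  have h5 : (m : ℚ) + 1 ≠ 0 := by positivity
  rw [h2]
  push_cast
  field_simp

include R in
/-- **Objects of pure parity.** If a symmetric or exterior power of `E` has a vanishing exterior or
symmetric power then so has `E`. -/
theorem pure_case (hU : UnitQ C) {E S : C} {d : ℚ} (hd : d = 1 ∨ d = -1)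
    (hE : R.par E = (d : K) • 𝟙 _) (hnil : HomNil R E) {η : ℚ} (hη : η = 1 ∨ η = -1) (m : ℕ)
    (i : S ⟶ tp E (m + 1)) (r : tp E (m + 1) ⟶ S) (hir : i ≫ r = 𝟙 S)
    (hri : r ≫ i = asym η E (m + 1)) {n : ℕ} (hS : asym (-(d ^ (m + 1))) S n = 0) :
    ∃ k, asym (-d) E k = 0 := by
  have hdd : d * d = 1 := by rcases hd with rfl | rfl <;> norm_num
  have hηη : η * η = 1 := by rcases hη with rfl | rfl <;> norm_num
  have hd0 : d ≠ 0 := by rcases hd with rfl | rfl <;> norm_num
  have hη0 : η ≠ 0 := by rcases hη with rfl | rfl <;> norm_num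
  set τ : ℚ := -(d ^ (m + 1)) with hτ
  have hτ1 : τ = 1 ∨ τ = -1 := by
    rcases hd with rfl | rfl
    · right; rw [hτ, one_pow]
    · rcases neg_one_pow_eq_or ℚ (m + 1) with h | h
      · right; rw [hτ, h]
      · left; rw [hτ, h, neg_neg]
  have hττ : τ * τ = 1 := by rcases hτ1 with h | h <;> rw [h] <;> norm_num
  set f : ℕ := Module.finrank K (R.H.obj E) with hf
  have hδ : trq hU E (1 : End E) = d * f := trq_one R hU d hE
  set δ := trq hU E (1 : End E) with hδδ
  -- the case of dimension zero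
  by_cases hf0 : f = 0
  · refine ⟨1, ?_⟩
    have h1 : 𝟙 E = 0 := id_eq_zero_of_trq R hU hdd hE hnil (by
      rw [← hδδ, hδ, hf0, Nat.cast_zero, mul_zero])
    have h2 : 𝟙 (tp E 1) = tp E 0 ◁ 𝟙 E := (MonoidalCategory.whiskerLeft_id _ _).symm
    rw [asym_one, h2, h1, MonoidalPreadditive.whiskerLeft_zero]
  have hfpos : (0 : ℚ) < f := by exact_mod_cast Nat.pos_of_ne_zero hf0
  -- parity, dimension and nilpotence of `S`
  have hSpar : R.par S = ((-τ : ℚ) : K) • 𝟙 _ := by
    have h1 := par_retract R (par_tp R hE (m + 1)) i r hir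
    rw [h1, hτ, neg_neg]
    push_cast
    rfl
  have hSnil : HomNil R S := by
    have h1 : IsKimuraFinite S := by
      rcases hτ1 with h | h
      · rw [h] at hS
        refine ⟨0, by simp, ⟨1, ?_⟩, n, ?_⟩
        · intro Z g _
          have e1 : tpm (0 : S ⟶ S) 1 = tpm (0 : S ⟶ S) 0 ⊗ₘ (0 : S ⟶ S) := rfl
          rw [e1, MonoidalCategory.tensorHom_def, MonoidalPreadditive.whiskerLeft_zero,
            comp_zero, zero_comp]
        · rw [sub_zero]
          exact (powerVanishes_iff (by norm_num) (𝟙 S) (𝟙 S) (by simp) (by simp) n).2 hS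
      · rw [h] at hS
        refine ⟨𝟙 S, by simp, ⟨n, ?_⟩, 1, ?_⟩
        · exact (powerVanishes_iff (by norm_num) (𝟙 S) (𝟙 S) (by simp) (by simp) n).2 hS
        · intro Z g _
          have e1 : tpm (𝟙 S - 𝟙 S) 1 = tpm (𝟙 S - 𝟙 S) 0 ⊗ₘ (𝟙 S - 𝟙 S) := rfl
          rw [e1, sub_self, MonoidalCategory.tensorHom_def, MonoidalPreadditive.whiskerLeft_zero,
            comp_zero, zero_comp]
    exact h1.homNil R hU
  have hStr : trq hU S (1 : End S) = (∏ k ∈ Finset.range m, cD δ η k) * δ := by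
    have h1 := trq_comm' R hU i r
    rw [hir, hri] at h1
    have h2 : trq hU S (1 : End S) = trq hU (tp E (m + 1)) (asym η E (m + 1)) := h1
    rw [h2, trq_asym_prod R hU hηη]
  have hττ' : (-τ) * (-τ) = 1 := by rw [neg_mul_neg, hττ]
  by_cases hD : ∀ k < m, cD δ η k ≠ 0
  · by_cases hA : ∀ k < m, cA δ η k ≠ 0
    · -- the generic case
      refine ⟨n + n * n, ?_⟩
      have h1 := tensor_eq_zero hτ1 hηη (tr_one hU E) i r hri hS hD hA
        (Nat.le_add_left (n * n) n) (ν := -d) (by rw [neg_mul_neg, hdd])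
      rw [neg_neg] at h1
      refine asym_of_tensor hU hdd E E _ h1 (F_one_ne R hU d hdd hE ?_ _)
      intro h0
      apply hf0
      have h0' := R.finite E
      have := ModuleCat.isZero_iff_subsingleton.1 h0
      exact Module.finrank_zero_of_subsingleton
    · -- the determinant
      push Not at hA
      obtain ⟨k, hk, hk0⟩ := hA
      have h1 : δ + (k + 2) * η = 0 := by
        rw [cA, div_eq_zero_iff] at hk0
        rcases hk0 with h | h
        · exact (mul_eq_zero.1 h).resolve_left (by positivity)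
        · exfalso
          have : (0 : ℚ) < ((k + 2 : ℚ) * (k + 2)) := by positivity
          linarith
      have hkm : k + 1 = m := by
        by_contra hne
        apply hD (k + 1) (by omega)
        rw [cD]
        push_cast
        have : δ + η * ((k : ℚ) + 1 + 1) = 0 := by linear_combination h1
        rw [this, mul_zero]
      subst hkm
      have h2 : δ = -(((k + 1 + 1 : ℕ) : ℚ) * η) := by
        push_cast
        linear_combination h1
      have hηd : η = -d := by
        rcases hd with rfl | rfl <;> rcases hη with rfl | rfl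
        · exfalso
          have : (0 : ℚ) ≤ k := Nat.cast_nonneg k
          linarith
        · norm_num
        · norm_num
        · exfalso
          have : (0 : ℚ) ≤ k := Nat.cast_nonneg k
          linarith
      refine ⟨k + 1 + 2, ?_⟩
      rw [← hηd]
      have hStr' : trq hU S (1 : End S) = -τ := by
        rw [hStr, h2]
        have e1 := prod_cD (η := η) (k + 1)
        have e2 : (∏ j ∈ Finset.range (k + 1), cD (-(((k + 1 + 1 : ℕ) : ℚ) * η)) η j) *
            -(((k + 1 + 1 : ℕ) : ℚ) * η) = (-η) ^ (k + 1 + 1) := by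
          rw [pow_succ, ← e1]
          ring
        rw [e2, hηd, neg_neg, hτ, neg_neg]
      have hcD : cD δ η (k + 1) = 0 := by
        rw [cD]
        push_cast
        have : δ + η * ((k : ℚ) + 1 + 1) = 0 := by linear_combination h1
        rw [this, mul_zero]
      exact next_power R hU hdd hE hnil hηη (k + 1) i r hir hri hττ hStr'
        (asym_two R hU hττ hStr' n hS) hcD
  · -- the power is zero
    push Not at hD
    obtain ⟨k, hk, hk0⟩ := hD
    have h1 : 𝟙 S = 0 := by
      refine id_eq_zero_of_trq R hU hττ' hSpar hSnil ?_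
      rw [hStr, Finset.prod_eq_zero (Finset.mem_range.2 hk) hk0, zero_mul]
    have h2 : asym η E (m + 1) = 0 := by
      rw [← hri]
      have : i = 0 := by rw [← Category.id_comp i, h1, zero_comp]
      rw [this, comp_zero]
    have h3 : δ + η * (k + 1) = 0 := by
      rw [cD] at hk0
      have e1 : (((k + 1 : ℕ) : ℚ) + 1)⁻¹ ≠ 0 := by positivity
      have := (mul_eq_zero.1 hk0).resolve_left e1
      push_cast at this
      exact this
    have hηd : η = -d := by
      rcases hd with rfl | rfl <;> rcases hη with rfl | rfl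
      · exfalso
        have : (0 : ℚ) ≤ k := Nat.cast_nonneg k
        linarith
      · norm_num
      · norm_num
      · exfalso
        have : (0 : ℚ) ≤ k := Nat.cast_nonneg k
        linarith
    exact ⟨m + 1, by rw [← hηd]; exact h2⟩

end

end Pool.Agent.K3h8.KS
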