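import Pool.Agent.K3h8.KS.Defs
import Pool.Agent.K3h8.KS.Pure
import Pool.Agent.Y112.SC.Main

/-!
# Kimura finiteness descends from symmetric and exterior powers
-/

set_option autoImplicit false
set_option linter.unusedSectionVars false
set_option linter.unusedSimpArgs false
set_option backward.isDefEq.respectTransparency false
set_option backward.defeqAttrib.useBackward true

open CategoryTheory Limits MonoidalCategory
open Pool.Agent.Y112.SR Pool.Agent.Y112.KD Pool.Agent.Y112.SC Pool.Agent.R905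
open Pool.Agent.Y116.MT (tr)

namespace Pool.Agent.K3h8.KS

universe v u w

section

variable {C : Type u} [Category.{v} C] [Preadditive C] [Linear ℚ C] [MonoidalCategory C]
  [MonoidalPreadditive C] [MonoidalLinear ℚ C] [SymmetricCategory C]

/-- Powers are cut out by the (anti)symmetrizer. -/
lemma IsPower.split {η : ℚ} (hη : η * η = 1) {M T : C} {n : ℕ} (h : IsPower η M T n) :
    ∃ (i : T ⟶ tp M n) (r : tp M n ⟶ T), i ≫ r = 𝟙 T ∧ r ≫ i = asym η M n := by
  obtain ⟨r, hr, huniv⟩ := h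
  obtain ⟨i, hi, -⟩ := huniv _ (asym η M n) (fun s hs => (swap_asym hη M hs).1)
  refine ⟨i, r, ?_, hi⟩
  have h1 : asym η M n ≫ r = r := asym_comp hη r hr
  obtain ⟨g, -, hg⟩ := huniv _ r hr
  have h2 : i ≫ r = g := hg _ (by
    change r ≫ i ≫ r = r
    rw [← Category.assoc, hi, h1])
  have h3 : 𝟙 T = g := hg _ (Category.comp_id r)
  rw [h2, h3]

lemma adjoin_whisker {M : C} {n : ℕ} {x : End (tp M n)}
    (hx : x ∈ Algebra.adjoin ℚ {s : End (tp M n) | IsSwap M n s}) :
    en (X := tp M (n + 1)) ((x : tp M n ⟶ tp M n) ▷ M) ∈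
      Algebra.adjoin ℚ {s : End (tp M (n + 1)) | IsSwap M (n + 1) s} := by
  induction hx using Algebra.adjoin_induction with
  | mem s hs => exact Algebra.subset_adjoin (IsSwap.lift _ _ hs)
  | algebraMap q =>
    have h1 : en (X := tp M (n + 1))
        (((algebraMap ℚ (End (tp M n)) q : End (tp M n)) : tp M n ⟶ tp M n) ▷ M) =
        algebraMap ℚ (End (tp M (n + 1))) q := by
      rw [Algebra.algebraMap_eq_smul_one, Algebra.algebraMap_eq_smul_one]
      have h2 : (q • 𝟙 (tp M n)) ▷ M = q • ((𝟙 (tp M n)) ▷ M) :=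
        MonoidalLinear.smul_whiskerRight _ _ _
      rw [id_whiskerRight] at h2
      exact h2
    rw [h1]
    exact Subalgebra.algebraMap_mem _ _
  | add x y _ _ hx hy =>
    have h1 : en (X := tp M (n + 1)) (((x + y : End (tp M n)) : tp M n ⟶ tp M n) ▷ M) =
        en (X := tp M (n + 1)) ((x : tp M n ⟶ tp M n) ▷ M) +
          en (X := tp M (n + 1)) ((y : tp M n ⟶ tp M n) ▷ M) := by
      have h2 : ((x : tp M n ⟶ tp M n) + (y : tp M n ⟶ tp M n)) ▷ M =
        (x : tp M n ⟶ tp M n) ▷ M + (y : tp M n ⟶ tp M n) ▷ M := by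
        rw [MonoidalPreadditive.add_whiskerRight]
      exact h2
    rw [h1]
    exact Subalgebra.add_mem _ hx hy
  | mul x y _ _ hx hy =>
    have h1 : en (X := tp M (n + 1)) (((x * y : End (tp M n)) : tp M n ⟶ tp M n) ▷ M) =
        en (X := tp M (n + 1)) ((x : tp M n ⟶ tp M n) ▷ M) *
          en (X := tp M (n + 1)) ((y : tp M n ⟶ tp M n) ▷ M) := by
      rw [End.mul_def, End.mul_def]
      exact comp_whiskerRight _ _ _
    rw [h1]
    exact Subalgebra.mul_mem _ hx hy

lemma asym_mem_adjoin (η : ℚ) (M : C) : ∀ n : ℕ, en (asym η M n) ∈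
    Algebra.adjoin ℚ {s : End (tp M n) | IsSwap M n s} := by
  intro n
  induction n with
  | zero => exact Subalgebra.one_mem _
  | succ n ih =>
    rcases n with - | n
    · exact Subalgebra.one_mem _
    · have h1 := adjoin_whisker ih
      have h2 : en (X := tp M (n + 2)) (sw (tp M n) M) ∈
          Algebra.adjoin ℚ {s : End (tp M (n + 2)) | IsSwap M (n + 2) s} :=
        Algebra.subset_adjoin (IsSwap.last n)
      have h3 : en (asym η M (n + 2)) = ((((n + 1 : ℕ) : ℚ) + 1)⁻¹ •
          (en (X := tp M (n + 2)) (asym η M (n + 1) ▷ M) + (η * ((n + 1 : ℕ) : ℚ)) •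
          ((en (X := tp M (n + 2)) (asym η M (n + 1) ▷ M) *
            en (X := tp M (n + 2)) (sw (tp M n) M)) *
            en (X := tp M (n + 2)) (asym η M (n + 1) ▷ M))) : End (tp M (n + 2))) := by
        rw [End.mul_def, End.mul_def]
        exact asym_succ η M n
      rw [h3]
      exact Subalgebra.smul_mem _ (Subalgebra.add_mem _ h1 (Subalgebra.smul_mem _
        (Subalgebra.mul_mem _ (Subalgebra.mul_mem _ h1 h2) h1) _)) _

variable {K : Type w} [Field K] (R : SuperRealisation C K)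

lemma map_tpm_zero {M : C} (f : M ⟶ M) (hf : R.H.map f = 0) (n : ℕ) :
    R.H.map (tpm f (n + 1)) = 0 := by
  have h1 : R.H.map (tpm f (n + 1)) = bx R (R.H.map (tpm f n)) (R.H.map f) :=
    (bx_map R (tpm f n) f).symm
  rw [h1, hf]
  have h2 := bx_smul_right R (0 : K) (R.H.map (tpm f n)) (0 : R.H.obj M ⟶ R.H.obj M)
  rwa [zero_smul, zero_smul] at h2

variable [RightRigidCategory C]

include R in
/-- Nilpotence descends from powers. -/
lemma homNil_of_power (hU : UnitQ C) {η : ℚ} (hη : η = 1 ∨ η = -1) {M T : C} (m : ℕ)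
    (i : T ⟶ tp M (m + 1)) (r : tp M (m + 1) ⟶ T) (hir : i ≫ r = 𝟙 T)
    (hri : r ≫ i = asym η M (m + 1)) (hT : HomNil R T) : HomNil R M := by
  have hηη : η * η = 1 := by rcases hη with rfl | rfl <;> norm_num
  have hη0 : η ≠ 0 := by rcases hη with rfl | rfl <;> norm_num
  intro f hf
  have hia : i ≫ asym η M (m + 1) = i := by rw [← hri, reassoc_of% hir]
  have hφ : R.H.map (i ≫ tpm (f : M ⟶ M) (m + 1) ≫ r) = 0 := by
    rw [Functor.map_comp, Functor.map_comp, map_tpm_zero R (f : M ⟶ M) hf, zero_comp, comp_zero]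
  obtain ⟨N, hN⟩ := hT (en (i ≫ tpm (f : M ⟶ M) (m + 1) ≫ r)) hφ
  have key : ∀ N : ℕ, (en (i ≫ tpm (f : M ⟶ M) (m + 1) ≫ r)) ^ N =
      en (i ≫ tpm ((f ^ N : End M) : M ⟶ M) (m + 1) ≫ r) := by
    intro N
    induction N with
    | zero =>
      rw [pow_zero, pow_zero]
      have h1 : tpm ((1 : End M) : M ⟶ M) (m + 1) = 𝟙 _ := tpm_id M (m + 1)
      rw [h1, Category.id_comp, hir]
      rfl
    | succ N ih =>
      rw [pow_succ, ih, pow_succ, End.mul_def, End.mul_def]
      change (i ≫ tpm (f : M ⟶ M) (m + 1) ≫ r) ≫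
        (i ≫ tpm ((f ^ N : End M) : M ⟶ M) (m + 1) ≫ r) = _
      simp only [Category.assoc]
      rw [← Category.assoc r i, hri, ← Category.assoc (tpm (f : M ⟶ M) (m + 1)), asym_nat,
        Category.assoc, ← Category.assoc i, hia, ← Category.assoc (tpm (f : M ⟶ M) (m + 1)),
        tpm_comp]
      rfl
  set g : End M := f ^ N with hg
  have h1 : tpm (g : M ⟶ M) (m + 1) ≫ asym η M (m + 1) = 0 := by
    have h2 : i ≫ tpm (g : M ⟶ M) (m + 1) ≫ r = 0 := by
      rw [key N] at hN
      exact hN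
    calc tpm (g : M ⟶ M) (m + 1) ≫ asym η M (m + 1)
        = tpm (g : M ⟶ M) (m + 1) ≫ asym η M (m + 1) ≫ asym η M (m + 1) := by
          rw [asym_idem hηη]
      _ = (tpm (g : M ⟶ M) (m + 1) ≫ asym η M (m + 1)) ≫ asym η M (m + 1) := by
          rw [Category.assoc]
      _ = (asym η M (m + 1) ≫ tpm (g : M ⟶ M) (m + 1)) ≫ asym η M (m + 1) := by
          rw [asym_nat]
      _ = r ≫ (i ≫ tpm (g : M ⟶ M) (m + 1) ≫ r) ≫ i := by
          rw [← hri]; simp only [Category.assoc]
      _ = 0 := by rw [h2]; simp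
  have hDn : ∀ n : ℕ, Dn n (fun _ : Fin n => (g : M ⟶ M)) = tpm (g : M ⟶ M) n := by
    intro n
    induction n with
    | zero => rfl
    | succ n ih => rw [Dn_succ, ih]; rfl
  have h2 : gg η (m + 1) (fun _ : Fin (m + 1) => g) = 0 := by
    rw [gg, hDn, h1, smul_zero]
  have h3 := cc_gg hU hηη m (fun _ : Fin (m + 1) => g)
  rw [h2, map_zero] at h3
  -- the traces of the powers vanish
  by_cases hN0 : N = 0
  · -- then `1 = 0` in `End T`, and `g = 1`
    subst hN0
    have h4 : g = 1 := by rw [hg, pow_zero]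
    -- `asym = 0`
    have h5 : asym η M (m + 1) = 0 := by
      have h6 : tpm (g : M ⟶ M) (m + 1) = 𝟙 _ := by
        rw [h4]; exact tpm_id M (m + 1)
      rw [h6, Category.id_comp] at h1
      exact h1
    -- apply the argument to `f`
    have h7 : gg η (m + 1) (fun _ : Fin (m + 1) => f) = 0 := by
      rw [gg, h5, comp_zero, smul_zero]
    have h8 := cc_gg hU hηη m (fun _ : Fin (m + 1) => f)
    rw [h7, map_zero] at h8
    have h9 := Pool.Agent.TH829.Kim.K_of_tr_zero (trq hU M) η (h := f)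
      (inRad_of_map R hU f hf).tr_pow m (fun _ => 1) (fun _ => le_rfl)
    simp only [pow_one, Finset.sum_const, Finset.card_univ, Fintype.card_fin, smul_eq_mul,
      mul_one] at h9
    rw [← h8] at h9
    have h10 : (η ^ m * m.factorial : ℚ) ≠ 0 := by positivity
    exact ⟨m + 1, (smul_eq_zero.1 h9.symm).resolve_left h10⟩
  · have hgR : R.H.map (g : M ⟶ M) = 0 := by
      obtain ⟨N', rfl⟩ := Nat.exists_eq_succ_of_ne_zero hN0
      rw [hg, pow_succ, End.mul_def, Functor.map_comp, hf, zero_comp]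
    have h9 := Pool.Agent.TH829.Kim.K_of_tr_zero (trq hU M) η (h := g)
      (inRad_of_map R hU g hgR).tr_pow m (fun _ => 1) (fun _ => le_rfl)
    simp only [pow_one, Finset.sum_const, Finset.card_univ, Fintype.card_fin, smul_eq_mul,
      mul_one] at h9
    rw [← h3] at h9
    have h10 : (η ^ m * m.factorial : ℚ) ≠ 0 := by positivity
    have h11 := (smul_eq_zero.1 h9.symm).resolve_left h10
    rw [hg, ← pow_mul] at h11
    exact ⟨_, h11⟩

variable [IsIdempotentComplete C]

/-- An object with a vanishing power is Kimura finite. -/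
lemma kimura_of_asym {η : ℚ} (hη : η = 1 ∨ η = -1) {M : C} {n : ℕ} (h : asym η M n = 0) :
    IsKimuraFinite M := by
  have h0 : ∀ (τ : ℚ) (x : M ⟶ M), x = 0 → PowerVanishes τ x 1 := by
    intro τ x hx Z g _
    have e1 : tpm x 1 = tpm x 0 ⊗ₘ x := rfl
    rw [e1, hx, MonoidalCategory.tensorHom_def, MonoidalPreadditive.whiskerLeft_zero,
      comp_zero, zero_comp]
  rcases hη with rfl | rfl
  · refine ⟨0, by simp, ⟨1, h0 _ _ rfl⟩, n, ?_⟩
    rw [sub_zero]
    exact (powerVanishes_iff (by norm_num) (𝟙 M) (𝟙 M) (by simp) (by simp) n).2 h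
  · refine ⟨𝟙 M, by simp, ⟨n, ?_⟩, 1, h0 _ _ (sub_self _)⟩
    exact (powerVanishes_iff (by norm_num) (𝟙 M) (𝟙 M) (by simp) (by simp) n).2 h

include R in
/-- **Kimura finiteness descends from symmetric and exterior powers.** -/
theorem kimura_of_power (hU : UnitQ C) {η : ℚ} (hη : η = 1 ∨ η = -1) {M T : C} {n : ℕ}
    (hn : 1 ≤ n) (hT : IsPower η M T n) (h : IsKimuraFinite T) : IsKimuraFinite M := by
  have hηη : η * η = 1 := by rcases hη with rfl | rfl <;> norm_num
  obtain ⟨i, r, hir, hri⟩ := hT.split hηη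
  obtain ⟨m, rfl⟩ := Nat.exists_eq_add_of_le' hn
  have hTnil := h.homNil R hU
  by_cases hz : IsZero (R.H.obj T)
  · have h1 : 𝟙 T = 0 := hTnil.id_eq_zero hz
    apply kimura_of_asym hη (n := m + 1)
    have h2 : i = 0 := by rw [← Category.id_comp i, h1, zero_comp]
    rw [← hri, h2, comp_zero]
  have hM : HomNil R M := homNil_of_power R hU hη m i r hir hri hTnil
  have hC : R.CPlus M := cplus_of_schur R hn ⟨i, r, hir, by
    rw [hri]
    exact asym_mem_adjoin η M (m + 1)⟩ hz (h.cplus R)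
  obtain ⟨E, O, a, b, a', b', h1, h2, h3, hE, hO⟩ := exists_parts R hC hM
  have key : ∀ (P : C) (x : P ⟶ M) (y : M ⟶ P) (d : ℚ), x ≫ y = 𝟙 P → (d = 1 ∨ d = -1) →
      R.par P = (d : K) • 𝟙 _ → ∃ n, asym (-d) P n = 0 := by
    intro P x y d hxy hd hP
    obtain ⟨S, iS, rS, hS1, hS2⟩ := IsIdempotentComplete.idempotents_split (tp P (m + 1))
      (asym η P (m + 1)) (asym_idem hηη P (m + 1))
    have hretr : (iS ≫ tpm x (m + 1) ≫ r) ≫ (i ≫ tpm y (m + 1) ≫ rS) = 𝟙 S := by
      simp only [Category.assoc]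
      rw [← Category.assoc r i, hri, ← Category.assoc (tpm x (m + 1)), asym_nat,
        Category.assoc, ← Category.assoc (tpm x (m + 1)), tpm_comp, hxy, tpm_id,
        Category.id_comp, ← hS2, Category.assoc, reassoc_of% hS1, hS1]
    have hSpar : R.par S = ((d ^ (m + 1) : ℚ) : K) • 𝟙 _ := by
      have e1 := par_retract R (par_tp R hP (m + 1)) iS rS hS1
      rw [e1]
      push_cast
      rfl
    have hd1 : d ^ (m + 1) = 1 ∨ d ^ (m + 1) = -1 := by
      rcases hd with rfl | rfl
      · left; rw [one_pow]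
      · exact neg_one_pow_eq_or ℚ (m + 1)
    obtain ⟨k, hk⟩ := h.summand R hU _ _ hretr hd1 hSpar
    exact pure_case R hU hd hP (hM.retract x y hxy) hη m iS rS hS1 hS2 hk
  obtain ⟨k, hk⟩ := key E a b 1 h1 (Or.inl rfl) (by rw [hE]; norm_num)
  obtain ⟨l, hl⟩ := key O a' b' (-1) h2 (Or.inr rfl) (by rw [hO]; norm_num)
  rw [neg_neg] at hl
  exact (isKimuraFinite_iff M).2 ⟨E, O, a, b, a', b', h1, h2, h3, ⟨k, hk⟩, l, hl⟩

/-- **Kimura finiteness descends from all objects built from `M`.** -/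
theorem kimura_of_built (hU : UnitQ C) {M T : C} (hT : Built R M T) (h : IsKimuraFinite T) :
    IsKimuraFinite M := by
  induction hT with
  | base => exact h
  | sym n _ hn hp ih => exact ih (kimura_of_power R hU (Or.inl rfl) hn hp h)
  | ext n _ hn hp ih => exact ih (kimura_of_power R hU (Or.inr rfl) hn hp h)
  | tensor N _ h1 h2 ih => exact ih (isKimuraFinite_left R hU h1 h2 h)
  | summand i r _ hir ih => exact ih (h.retract R hU i r hir)

end

end Pool.Agent.K3h8.KS
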