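import Mathlib

/-!
# Representations of symmetric groups without invariants and without sign invariants

A representation of a large symmetric group contains a vector which is invariant under the
permutations of `N'` letters, or a vector which is multiplied by the sign under the permutations of
`N` letters, unless it is zero.
-/

set_option autoImplicit false
set_option linter.unusedSectionVars false

open Equiv

namespace Pool.Agent.K3h8.KS

universe u

section

variable {α : Type} [DecidableEq α] [Fintype α] {V : Type u} [AddCommGroup V] [Module ℚ V]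
  (T : Perm α →* Module.End ℚ V)

/-- Transpositions of letters in `S` act as the scalar `η`. -/
def Inv (η : ℚ) (S : Finset α) (v : V) : Prop :=
  ∀ i ∈ S, ∀ j ∈ S, i ≠ j → T (swap i j) v = η • v

variable {T}

lemma T_mul (a b : Perm α) (v : V) : T a (T b v) = T (a * b) v := by
  rw [map_mul, Module.End.mul_apply]

lemma T_conj (σ : Perm α) (i j : α) (v : V) : T σ (T (swap i j) v) =
    T (swap (σ i) (σ j)) (T σ v) := by
  rw [T_mul, T_mul, Equiv.mul_swap_eq_swap_mul]

lemma Inv.step {η : ℚ} (hη : η * η = 1) {S : Finset α} {v : V} (h : Inv T η S v) {b : α}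
    (hb : b ∉ S) : Inv T η (insert b S) (v + η • ∑ i ∈ S, T (swap i b) v) := by
  have key1 : ∀ i ∈ S, ∀ j ∈ S, i ≠ j →
      T (swap i j) (v + η • ∑ k ∈ S, T (swap k b) v) = η • (v + η • ∑ k ∈ S, T (swap k b) v) := by
    intro i hi j hj hij
    rw [map_add, map_smul, map_sum, h i hi j hj hij, smul_add]
    congr 2
    have e1 : ∀ k ∈ S, T (swap i j) (T (swap k b) v) = η • T (swap (swap i j k) b) v := by
      intro k hk
      rw [T_conj, h i hi j hj hij, map_smul]
      have hb1 : swap i j b = b := swap_apply_of_ne_of_ne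
        (fun h => hb (h ▸ hi)) (fun h => hb (h ▸ hj))
      rw [hb1]
    rw [Finset.sum_congr rfl e1, ← Finset.smul_sum]
    congr 1
    refine Finset.sum_bij (fun k _ => swap i j k) ?_ ?_ ?_ ?_
    · intro k hk
      by_cases h1 : k = i
      · rw [h1, swap_apply_left]; exact hj
      · by_cases h2 : k = j
        · rw [h2, swap_apply_right]; exact hi
        · rw [swap_apply_of_ne_of_ne h1 h2]; exact hk
    · intro k _ l _ hkl
      exact (swap i j).injective hkl
    · intro k hk
      refine ⟨swap i j k, ?_, by simp⟩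
      by_cases h1 : k = i
      · rw [h1, swap_apply_left]; exact hj
      · by_cases h2 : k = j
        · rw [h2, swap_apply_right]; exact hi
        · rw [swap_apply_of_ne_of_ne h1 h2]; exact hk
    · intro k _
      rfl
  have key2 : ∀ j ∈ S,
      T (swap j b) (v + η • ∑ k ∈ S, T (swap k b) v) = η • (v + η • ∑ k ∈ S, T (swap k b) v) := by
    intro j hj
    have hjb : j ≠ b := fun h => hb (h ▸ hj)
    have e1 : ∀ k ∈ S.erase j, T (swap j b) (T (swap k b) v) = η • T (swap k b) v := by
      intro k hk
      have hkj : k ≠ j := (Finset.mem_erase.1 hk).1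
      have hkS : k ∈ S := (Finset.mem_erase.1 hk).2
      have hkb : k ≠ b := fun h => hb (h ▸ hkS)
      rw [T_mul]
      have e2 : swap j b * swap k b = swap k b * swap j k := by
        rw [Equiv.mul_swap_eq_swap_mul (swap k b) j k, swap_apply_of_ne_of_ne hkj.symm hjb,
          swap_apply_left]
      rw [e2, ← T_mul, h j hj k hkS hkj.symm, map_smul]
    rw [map_add, map_smul, map_sum, ← Finset.add_sum_erase S _ hj, Finset.sum_congr rfl e1,
      T_mul, swap_mul_self, map_one, Module.End.one_apply, ← Finset.smul_sum,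
      ← Finset.add_sum_erase S (fun k => T (swap k b) v) hj]
    have e4 : ∀ x y : V, η • (v + η • (x + y)) = η • v + (x + y) := by
      intro x y
      rw [smul_add, smul_smul, hη, one_smul]
    rw [e4, smul_add, smul_smul, hη, one_smul]
    abel
  intro i hi j hj hij
  rw [Finset.mem_insert] at hi hj
  rcases hi with rfl | hi
  · rcases hj with rfl | hj
    · exact absurd rfl hij
    · rw [swap_comm]
      exact key2 j hj
  · rcases hj with rfl | hj
    · exact key2 i hi
    · exact key1 i hi j hj hij

lemma Inv.outside {η : ℚ} {S : Finset α} {v : V} (h : Inv T η S v) {i j : α}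
    (hi : i ∉ S) (hj : j ∉ S) : Inv T η S (T (swap i j) v) := by
  intro k hk l hl hkl
  have h1 : swap k l * swap i j = swap i j * swap k l := by
    rw [Equiv.mul_swap_eq_swap_mul (swap k l) i j,
      swap_apply_of_ne_of_ne (fun h : i = k => hi (h.symm ▸ hk)) (fun h : i = l => hi (h.symm ▸ hl)),
      swap_apply_of_ne_of_ne (fun h : j = k => hj (h.symm ▸ hk)) (fun h : j = l => hj (h.symm ▸ hl))]
  rw [T_mul, h1, ← T_mul, h k hk l hl hkl, map_smul]

lemma Inv.mono {η : ℚ} {S S' : Finset α} {v : V} (h : Inv T η S v) (hS : S' ⊆ S) :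
    Inv T η S' v := fun i hi j hj => h i (hS hi) j (hS hj)

variable (T) in
/-- The submodule of invariants in a submodule. -/
def invSub (U : Submodule ℚ V) (S : Finset α) : Submodule ℚ V where
  carrier := {u | u ∈ U ∧ Inv T 1 S u}
  zero_mem' := ⟨U.zero_mem, fun i _ j _ _ => by rw [map_zero, smul_zero]⟩
  add_mem' := by
    rintro a b ⟨ha, ha'⟩ ⟨hb, hb'⟩
    refine ⟨U.add_mem ha hb, fun i hi j hj hij => ?_⟩
    rw [map_add, ha' i hi j hj hij, hb' i hi j hj hij, smul_add]
  smul_mem' := by
    rintro c a ⟨ha, ha'⟩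
    refine ⟨U.smul_mem c ha, fun i hi j hj hij => ?_⟩
    rw [map_smul, ha' i hi j hj hij, smul_comm]

/-- Rows are chosen greedily, then a column is alternating. -/
lemma exists_column {N' : ℕ} {U0 : Submodule ℚ V}
    (hrow : ∀ S : Finset α, S.card = N' → ∀ v ∈ U0, Inv T 1 S v → v = 0)
    (l : ℕ) : ∀ (A : Finset α) (U : Submodule ℚ V), U ≤ U0 → l * N' ≤ A.card →
    (∀ i ∈ A, ∀ j ∈ A, ∀ u ∈ U, T (swap i j) u ∈ U) → (∃ u ∈ U, u ≠ 0) →
    ∃ C ⊆ A, C.card = l ∧ ∃ w ∈ U, w ≠ 0 ∧ Inv T (-1) C w := by
  classical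
  have hrow' : ∀ S : Finset α, N' ≤ S.card → ∀ v ∈ U0, Inv T 1 S v → v = 0 := by
    intro S hS v hv0 hv
    obtain ⟨S', hS', hc⟩ := Finset.exists_subset_card_eq hS
    exact hrow S' hc v hv0 (hv.mono hS')
  induction l with
  | zero =>
    rintro A U - - - ⟨u, hu, hu0⟩
    exact ⟨∅, Finset.empty_subset _, rfl, u, hu, hu0, fun i hi => absurd hi (Finset.notMem_empty i)⟩
  | succ l ih =>
    intro A U hUU hA hst hU
    obtain ⟨u0, hu0, hu00⟩ := hU
    have hN' : 1 ≤ N' := by
      by_contra h
      have h0 : N' = 0 := by omega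
      exact hu00 (hrow ∅ (by simp [h0]) u0 (hUU hu0)
        (fun i hi => absurd hi (Finset.notMem_empty i)))
    -- a maximal row
    let P : Finset (Finset α) := A.powerset.filter (fun S => ∃ u ∈ U, u ≠ 0 ∧ Inv T 1 S u)
    have hA1 : A.Nonempty := by
      rw [← Finset.card_pos]
      have : 1 ≤ (l + 1) * N' := Nat.mul_pos (Nat.succ_pos l) hN'
      omega
    obtain ⟨a, ha⟩ := hA1
    have haP : ({a} : Finset α) ∈ P := by
      refine Finset.mem_filter.2 ⟨Finset.mem_powerset.2 (Finset.singleton_subset_iff.2 ha), u0, hu0,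
        hu00, ?_⟩
      intro i hi j hj hij
      rw [Finset.mem_singleton] at hi hj
      exact absurd (hi.trans hj.symm) hij
    obtain ⟨S, hSP, hmax⟩ := Finset.exists_max_image P Finset.card ⟨_, haP⟩
    have hS1 : 1 ≤ S.card := by
      have := hmax _ haP
      rwa [Finset.card_singleton] at this
    obtain ⟨hSA, u1, hu1, hu10, hu1S⟩ := Finset.mem_filter.1 hSP
    rw [Finset.mem_powerset] at hSA
    have hSN : S.card < N' := by
      by_contra h
      exact hu10 (hrow' S (by omega) u1 (hUU hu1) hu1S)
    have hmax' : ∀ b ∈ A, b ∉ S → ∀ u ∈ U, Inv T 1 (insert b S) u → u = 0 := by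
      intro b hb hbS u hu hinv
      by_contra h0
      have h1 : insert b S ∈ P := Finset.mem_filter.2 ⟨Finset.mem_powerset.2
        (Finset.insert_subset hb hSA), u, hu, h0, hinv⟩
      have h2 := hmax _ h1
      rw [Finset.card_insert_of_notMem hbS] at h2
      omega
    -- the induction
    obtain ⟨C, hC, hCc, w, hw, hw0, hwC⟩ := ih (A \ S) (invSub T U S)
      (fun u hu => hUU hu.1) (by
      rw [Finset.card_sdiff_of_subset hSA]
      have : (l + 1) * N' = l * N' + N' := by ring
      omega) (by
      rintro i hi j hj u ⟨hu, hu'⟩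
      rw [Finset.mem_sdiff] at hi hj
      exact ⟨hst i hi.1 j hj.1 u hu, hu'.outside hi.2 hj.2⟩) ⟨u1, ⟨hu1, hu1S⟩, hu10⟩
    obtain ⟨hwU, hwS⟩ := hw
    obtain ⟨c, hc⟩ : S.Nonempty := Finset.card_pos.1 (by omega)
    have hcC : c ∉ C := fun h => (Finset.mem_sdiff.1 (hC h)).2 hc
    have hcA : c ∈ A := hSA hc
    refine ⟨insert c C, Finset.insert_subset hcA (hC.trans Finset.sdiff_subset), by
      rw [Finset.card_insert_of_notMem hcC, hCc], w + (-1 : ℚ) • ∑ b ∈ C, T (swap b c) w, ?_, ?_,
      hwC.step (by norm_num) hcC⟩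
    · refine U.add_mem hwU (U.smul_mem _ (U.sum_mem fun b hb => ?_))
      exact hst b (Finset.mem_sdiff.1 (hC hb)).1 c hcA w hwU
    · intro h0
      have h1 : w = ∑ b ∈ C, T (swap b c) w := by
        rw [neg_smul, one_smul] at h0
        exact (add_neg_eq_zero.1 h0)
      have h2 : ∀ b ∈ C, ∑ i ∈ S, T (swap i b) w = -w := by
        intro b hb
        have hb' := Finset.mem_sdiff.1 (hC hb)
        have h3 := hmax' b hb'.1 hb'.2 (w + (1 : ℚ) • ∑ i ∈ S, T (swap i b) w) (by
          refine U.add_mem hwU (U.smul_mem _ (U.sum_mem fun i hi => ?_))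
          exact hst i (hSA hi) b hb'.1 w hwU) (hwS.step (by norm_num) hb'.2)
        rw [one_smul] at h3
        exact (neg_eq_of_add_eq_zero_right h3).symm
      have h4 : ∀ i ∈ S, w = ∑ b ∈ C, T (swap i b) w := by
        intro i hi
        by_cases hic : i = c
        · subst hic
          conv_lhs => rw [h1]
          exact Finset.sum_congr rfl fun b _ => by rw [swap_comm]
        · have h5 := congrArg (T (swap i c)) h1
          rw [hwS i hi c hc hic, one_smul, map_sum] at h5
          conv_lhs => rw [h5]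
          refine Finset.sum_congr rfl fun b hb => ?_
          have hb' := Finset.mem_sdiff.1 (hC hb)
          rw [T_conj, hwS i hi c hc hic, one_smul, swap_apply_right,
            swap_apply_of_ne_of_ne (fun h : b = i => hb'.2 (h.symm ▸ hi))
              (fun h : b = c => hb'.2 (h.symm ▸ hc)), swap_comm]
      have h6 : (S.card : ℚ) • w = -((C.card : ℚ) • w) := by
        have e1 : ∑ i ∈ S, w = ∑ i ∈ S, ∑ b ∈ C, T (swap i b) w := Finset.sum_congr rfl h4
        rw [Finset.sum_comm, Finset.sum_congr rfl h2, Finset.sum_const, Finset.sum_const] at e1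
        rw [← Nat.cast_smul_eq_nsmul ℚ, ← Nat.cast_smul_eq_nsmul ℚ, smul_neg] at e1
        exact e1
      have h7 : ((S.card : ℚ) + C.card) • w = 0 := by
        rw [add_smul, h6, neg_add_cancel]
      have h8 : ((S.card : ℚ) + C.card) ≠ 0 := by
        have h9 : (0 : ℚ) < S.card := by exact_mod_cast hS1
        have h10 : (0 : ℚ) ≤ C.card := Nat.cast_nonneg _
        exact ne_of_gt (by linarith)
      exact hw0 ((smul_eq_zero.1 h7).resolve_left h8)

/-- A representation of a large symmetric group without invariants under `N'` letters and without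
sign invariants under `N` letters is zero. -/
theorem eq_zero_of_no_inv {N N' : ℕ} (hN : N * N' ≤ Fintype.card α) (U : Submodule ℚ V)
    (hst : ∀ i j, ∀ u ∈ U, T (swap i j) u ∈ U)
    (hrow : ∀ S : Finset α, S.card = N' → ∀ v ∈ U, Inv T 1 S v → v = 0)
    (hcol : ∀ S : Finset α, S.card = N → ∀ v ∈ U, Inv T (-1) S v → v = 0) : ∀ v ∈ U, v = 0 := by
  intro v hvU
  by_contra hv
  obtain ⟨C, -, hC, w, hwU, hw0, hw⟩ := exists_column hrow N Finset.univ U le_rfl
    (by rwa [Finset.card_univ]) (fun i _ j _ u hu => hst i j u hu) ⟨v, hvU, hv⟩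
  exact hw0 (hcol C hC w hwU hw)

end

end Pool.Agent.K3h8.KS
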