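import Pool.Agent.K3h8.KS.Cox
import Pool.Agent.K3h8.KS.GA
import Pool.Agent.Y112.KD.Contr

/-!
# The action of the symmetric group on tensor powers
-/

set_option autoImplicit false
set_option linter.unusedSectionVars false
set_option linter.unusedSimpArgs false

open CategoryTheory Limits MonoidalCategory
open Pool.Agent.Y112.KD

namespace Pool.Agent.K3h8.KS

universe v u

section

variable {C : Type u} [Category.{v} C] [MonoidalCategory C] [SymmetricCategory C]

/-- The exchange of the factors number `i` and `i + 1` of the tensor power. -/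
def adj (X : C) : ∀ (n : ℕ) (_ : ℕ), (tp X n ⟶ tp X n)
  | 0, _ => 𝟙 _
  | 1, _ => 𝟙 _
  | n + 2, i => if i = n then sw (tp X n) X else adj X (n + 1) i ▷ X

lemma adj_last (X : C) (n : ℕ) : adj X (n + 2) n = sw (tp X n) X := by
  simp [adj]

lemma adj_lift (X : C) {n i : ℕ} (h : i + 1 < n) : adj X (n + 1) i = adj X n i ▷ X := by
  obtain ⟨m, rfl⟩ : ∃ m, n = m + 1 := ⟨n - 1, by omega⟩
  have h1 : i ≠ m := by omega
  simp [adj, h1]

lemma isSwap_adj (X : C) : ∀ {n i : ℕ}, i + 1 < n → IsSwap X n (adj X n i) := by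
  intro n
  induction n with
  | zero => intro i h; omega
  | succ n ih =>
    intro i h
    by_cases h1 : i + 1 < n
    · rw [adj_lift X h1]
      exact IsSwap.lift _ _ (ih h1)
    · obtain rfl : n = i + 1 := by omega
      rw [adj_last]
      exact IsSwap.last i

lemma exists_adj (X : C) {n : ℕ} {s : tp X n ⟶ tp X n} (hs : IsSwap X n s) :
    ∃ i, i + 1 < n ∧ s = adj X n i := by
  induction hs with
  | last n => exact ⟨n, by omega, (adj_last X n).symm⟩
  | lift n s hs ih =>
    obtain ⟨i, hi, rfl⟩ := ih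
    exact ⟨i, by omega, (adj_lift X hi).symm⟩

lemma adj_sq (X : C) : ∀ {n i : ℕ}, i + 1 < n → adj X n i ≫ adj X n i = 𝟙 _ := by
  intro n
  induction n with
  | zero => intro i h; omega
  | succ n ih =>
    intro i h
    by_cases h1 : i + 1 < n
    · rw [adj_lift X h1, ← comp_whiskerRight, ih h1, id_whiskerRight]
    · obtain rfl : n = i + 1 := by omega
      rw [adj_last, sw_sw]

lemma adj_braid (X : C) : ∀ {n i : ℕ}, i + 2 < n →
    adj X n i ≫ adj X n (i + 1) ≫ adj X n i =
      adj X n (i + 1) ≫ adj X n i ≫ adj X n (i + 1) := by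
  intro n
  induction n with
  | zero => intro i h; omega
  | succ n ih =>
    intro i h
    by_cases h1 : i + 2 < n
    · rw [adj_lift X (show i + 1 < n by omega), adj_lift X (show i + 1 + 1 < n by omega),
        ← comp_whiskerRight, ← comp_whiskerRight, ih h1, comp_whiskerRight, comp_whiskerRight]
    · obtain rfl : n = i + 2 := by omega
      rw [adj_lift X (show i + 1 < i + 2 by omega), adj_last X (i + 1), adj_last X i]
      exact (braid (tp X i) X).symm

lemma adj_comm (X : C) : ∀ {n i j : ℕ}, i + 1 < j → j + 1 < n →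
    adj X n i ≫ adj X n j = adj X n j ≫ adj X n i := by
  intro n
  induction n with
  | zero => intro i j h h'; omega
  | succ n ih =>
    intro i j h h'
    by_cases h1 : j + 1 < n
    · rw [adj_lift X (show i + 1 < n by omega), adj_lift X h1, ← comp_whiskerRight,
        ← comp_whiskerRight, ih h h1]
    · obtain rfl : n = j + 1 := by omega
      rw [adj_lift X (show i + 1 < j + 1 by omega), adj_lift X h, adj_last]
      exact sw_nat_left _

/-- The exchanges as units. -/
def adjU (X : C) (m i : ℕ) : (End (tp X (m + 1)))ˣ :=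
  if h : i < m then
    { val := adj X (m + 1) i
      inv := adj X (m + 1) i
      val_inv := adj_sq X (by omega)
      inv_val := adj_sq X (by omega) }
  else 1

lemma adjU_val (X : C) {m i : ℕ} (h : i < m) :
    ((adjU X m i : (End (tp X (m + 1)))ˣ) : End (tp X (m + 1))) = adj X (m + 1) i := by
  simp [adjU, h]

/-- The action of the symmetric group on the tensor power. -/
theorem exists_rho (X : C) (m : ℕ) : ∃ ρ : Equiv.Perm (Fin (m + 1)) →* End (tp X (m + 1)),
    ∀ i : Fin m, ρ (Equiv.swap i.castSucc i.succ) = adj X (m + 1) i := by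
  obtain ⟨f, hf⟩ := cox_lift (Q := (End (tp X (m + 1)))ˣ) m (adjU X m) (by
    intro i hi
    ext
    rw [Units.val_mul, adjU_val X hi, Units.val_one]
    exact adj_sq X (by omega)) (by
    intro i hi
    ext
    rw [Units.val_mul, Units.val_mul, Units.val_mul, Units.val_mul, adjU_val X hi,
      adjU_val X (show i < m by omega)]
    simp only [End.mul_def]
    exact adj_braid X (by omega)) (by
    intro i j hij hj
    ext
    rw [Units.val_mul, Units.val_mul, adjU_val X hj, adjU_val X (show i < m by omega)]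
    simp only [End.mul_def]
    exact (adj_comm X hij (by omega)).symm)
  refine ⟨(Units.coeHom _).comp f, fun i => ?_⟩
  rw [MonoidHom.comp_apply, hf, Units.coeHom_apply, adjU_val X i.2]

/-- An operator on the first factors, as an operator on a longer tensor power. -/
def wk {X : C} {n : ℕ} : ∀ (k : ℕ) (_ : tp X n ⟶ tp X n), (tp X (n + k) ⟶ tp X (n + k))
  | 0, x => x
  | k + 1, x => wk k x ▷ X

lemma wk_comp {X : C} {n : ℕ} (k : ℕ) (x y : tp X n ⟶ tp X n) :
    wk k (x ≫ y) = wk k x ≫ wk k y := by
  induction k with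
  | zero => rfl
  | succ k ih =>
    rw [wk, ih, comp_whiskerRight]
    rfl

lemma wk_id {X : C} {n : ℕ} (k : ℕ) : wk k (𝟙 (tp X n)) = 𝟙 _ := by
  induction k with
  | zero => rfl
  | succ k ih =>
    rw [wk, ih, id_whiskerRight]
    rfl

lemma wk_adj {X : C} {n i : ℕ} (h : i + 1 < n) (k : ℕ) :
    wk k (adj X n i) = adj X (n + k) i := by
  induction k with
  | zero => rfl
  | succ k ih =>
    rw [wk, ih]
    exact (adj_lift X (show i + 1 < n + k by omega)).symm

variable [Preadditive C] [Linear ℚ C] [MonoidalPreadditive C] [MonoidalLinear ℚ C]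

lemma wk_add {X : C} {n : ℕ} (k : ℕ) (x y : tp X n ⟶ tp X n) :
    wk k (x + y) = wk k x + wk k y := by
  induction k with
  | zero => rfl
  | succ k ih =>
    rw [wk, ih, MonoidalPreadditive.add_whiskerRight]
    rfl

lemma wk_smul {X : C} {n : ℕ} (k : ℕ) (c : ℚ) (x : tp X n ⟶ tp X n) :
    wk k (c • x) = c • wk k x := by
  induction k with
  | zero => rfl
  | succ k ih =>
    rw [wk, ih, MonoidalLinear.smul_whiskerRight]
    rfl

lemma wk_zero {X : C} {n : ℕ} (k : ℕ) : wk k (0 : tp X n ⟶ tp X n) = 0 := by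
  have := wk_smul k (0 : ℚ) (0 : tp X n ⟶ tp X n)
  simpa using this

/-- Vectors on which the exchanges act as the scalar `η` are fixed by the (anti)symmetrizer. -/
lemma psi_asym {η : ℚ} (hη : η * η = 1) {X : C} {V : Type v} [AddCommGroup V] [Module ℚ V]
    (w : V) : ∀ (n : ℕ) (ψ : (tp X n ⟶ tp X n) →ₗ[ℚ] Module.End ℚ V),
    (∀ x y, ψ (x ≫ y) = ψ y * ψ x) → ψ (𝟙 _) = 1 →
    (∀ s, IsSwap X n s → ψ s w = η • w) → ψ (asym η X n) w = w := by
  intro n
  induction n with
  | zero =>
    intro ψ _ h1 _
    rw [asym_zero, h1, Module.End.one_apply]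
  | succ n ih =>
    intro ψ hm h1 hs
    rcases n with - | n
    · rw [asym_one, h1, Module.End.one_apply]
    · let ψ' : (tp X (n + 1) ⟶ tp X (n + 1)) →ₗ[ℚ] Module.End ℚ V :=
        { toFun := fun x => ψ (x ▷ X)
          map_add' := fun x y => by
            rw [MonoidalPreadditive.add_whiskerRight, map_add]
          map_smul' := fun c x => by
            rw [MonoidalLinear.smul_whiskerRight, map_smul, RingHom.id_apply] }
      have h2 : ψ (asym η X (n + 1) ▷ X) w = w :=
        ih ψ' (fun x y => by
          change ψ ((x ≫ y) ▷ X) = ψ (y ▷ X) * ψ (x ▷ X)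
          rw [comp_whiskerRight, hm]) (by
          change ψ ((𝟙 _) ▷ X) = 1
          rw [id_whiskerRight, h1]) (fun s hs' => hs _ (IsSwap.lift _ _ hs'))
      have h3 : ψ (sw (tp X n) X) w = η • w := hs _ (IsSwap.last n)
      rw [asym_succ, map_smul, map_add, map_smul, hm, hm, LinearMap.smul_apply,
        LinearMap.add_apply, LinearMap.smul_apply, Module.End.mul_apply, Module.End.mul_apply, h2,
        h3, map_smul, h2, smul_smul]
      have hn : ((n + 1 : ℕ) : ℚ) + 1 ≠ 0 := by positivity
      have e1 : η * ((n + 1 : ℕ) : ℚ) * η = ((n + 1 : ℕ) : ℚ) := by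
        linear_combination ((n + 1 : ℕ) : ℚ) * hη
      rw [e1]
      have e2 : w + ((n + 1 : ℕ) : ℚ) • w = (((n + 1 : ℕ) : ℚ) + 1) • w := by module
      rw [e2, smul_smul, inv_mul_cancel₀ hn, one_smul]

end

end Pool.Agent.K3h8.KS
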