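import Pool.Agent.K3h8.KS.Act

/-!
# Operators which anticommute with the symmetric group vanish
-/

set_option autoImplicit false
set_option linter.unusedSectionVars false
set_option linter.unusedSimpArgs false

open CategoryTheory Limits MonoidalCategory
open Pool.Agent.Y112.KD

namespace Pool.Agent.K3h8.KS

universe v u

lemma perm_induction {M : ℕ} {P : Equiv.Perm (Fin M) → Prop} (h1 : P 1)
    (hm : ∀ g h, P g → P h → P (g * h))
    (hs : ∀ (i : ℕ) (hi : i + 1 < M), P (Equiv.swap ⟨i, by omega⟩ ⟨i + 1, hi⟩)) :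
    ∀ g, P g := by
  intro g
  rcases M with - | m
  · have : g = 1 := Subsingleton.elim _ _
    rw [this]
    exact h1
  · have hg : g ∈ Submonoid.closure (Set.range fun i : Fin m => Equiv.swap i.castSucc i.succ) := by
      rw [Equiv.Perm.mclosure_swap_castSucc_succ]
      exact Submonoid.mem_top _
    induction hg using Submonoid.closure_induction with
    | mem x hx =>
      obtain ⟨i, rfl⟩ := hx
      exact hs i (by omega)
    | one => exact h1
    | mul x y _ _ hx hy => exact hm x y hx hy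

section

variable {C : Type u} [Category.{v} C] [MonoidalCategory C] [SymmetricCategory C]

/-- The action of the symmetric group on the tensor power. -/
theorem exists_rho' (X : C) (M : ℕ) : ∃ ρ : Equiv.Perm (Fin M) →* End (tp X M),
    ∀ (i : ℕ) (hi : i + 1 < M), ρ (Equiv.swap ⟨i, by omega⟩ ⟨i + 1, hi⟩) = adj X M i := by
  rcases M with - | m
  · exact ⟨1, fun i hi => absurd hi (by omega)⟩
  · obtain ⟨ρ, hρ⟩ := exists_rho X m
    exact ⟨ρ, fun i hi => hρ ⟨i, by omega⟩⟩

variable [Preadditive C] [Linear ℚ C] [MonoidalPreadditive C] [MonoidalLinear ℚ C]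

/-- The action on the morphisms to a tensor power. -/
def TT {A B X : C} {M : ℕ} (ρ : Equiv.Perm (Fin M) →* End (tp X M)) :
    Equiv.Perm (Fin M) →* Module.End ℚ (A ⊗ tp X M ⟶ B ⊗ tp X M) where
  toFun g :=
    { toFun := fun v => v ≫ (B ◁ (ρ g : tp X M ⟶ tp X M))
      map_add' := fun x y => Preadditive.add_comp _ _ _ _ _ _
      map_smul' := fun c x => Linear.smul_comp _ _ _ _ _ _ }
  map_one' := by
    ext v
    simp only [map_one, End.one_def, MonoidalCategory.whiskerLeft_id, Category.comp_id,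
      LinearMap.coe_mk, AddHom.coe_mk, Module.End.one_apply]
  map_mul' g h := by
    ext v
    simp only [map_mul, End.mul_def, MonoidalCategory.whiskerLeft_comp,
      LinearMap.coe_mk, AddHom.coe_mk, Module.End.mul_apply, Category.assoc]

lemma TT_apply {A B X : C} {M : ℕ} (ρ : Equiv.Perm (Fin M) →* End (tp X M))
    (g : Equiv.Perm (Fin M)) (v : A ⊗ tp X M ⟶ B ⊗ tp X M) :
    TT (A := A) (B := B) ρ g v = v ≫ (B ◁ (ρ g : tp X M ⟶ tp X M)) := rfl

lemma exists_perm {M N : ℕ} (hNM : N ≤ M) {S : Finset (Fin M)} (hS : S.card = N) :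
    ∃ π : Equiv.Perm (Fin M), ∀ i, i ∈ S ↔ (π i).val < N := by
  classical
  have h1 : Fintype.card {i // i ∈ S} = Fintype.card {i : Fin M // i.val < N} := by
    rw [Fintype.card_coe, hS, Fintype.card_subtype]
    have h2 : (Finset.univ.filter fun i : Fin M => i.val < N) =
        (Finset.univ : Finset (Fin N)).image (Fin.castLE hNM) := by
      ext i
      simp only [Finset.mem_filter, Finset.mem_univ, true_and, Finset.mem_image]
      constructor
      · intro hi
        exact ⟨⟨i.val, hi⟩, rfl⟩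
      · rintro ⟨j, rfl⟩
        exact j.2
    rw [h2, Finset.card_image_of_injective _ (Fin.castLE_injective hNM), Finset.card_univ,
      Fintype.card_fin]
  let e : {i // i ∈ S} ≃ {i : Fin M // i.val < N} := Fintype.equivOfCardEq h1
  refine ⟨e.extendSubtype, fun i => ⟨fun hi => ?_, fun hi => ?_⟩⟩
  · rw [Equiv.extendSubtype_apply_of_mem _ _ hi]
    exact (e ⟨i, hi⟩).2
  · by_contra h
    exact e.extendSubtype_not_mem _ h hi

/-- A vector with scalar action of the transpositions in a set of `n` letters is moved to a vector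
fixed by the (anti)symmetrizer of the first `n` factors. -/
lemma fixed_of_inv {η : ℚ} (hη : η * η = 1) {A B X : C} {n k : ℕ}
    {ρ : Equiv.Perm (Fin (n + k)) →* End (tp X (n + k))}
    (hρ : ∀ (i : ℕ) (hi : i + 1 < n + k),
      ρ (Equiv.swap ⟨i, by omega⟩ ⟨i + 1, hi⟩) = adj X (n + k) i)
    {S : Finset (Fin (n + k))} (hS : S.card = n) {v : A ⊗ tp X (n + k) ⟶ B ⊗ tp X (n + k)}
    (hv : Inv (TT (A := A) (B := B) ρ) η S v) :
    ∃ π : Equiv.Perm (Fin (n + k)),
      TT (A := A) (B := B) ρ π v ≫ (B ◁ wk k (asym η X n)) = TT (A := A) (B := B) ρ π v := by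
  obtain ⟨π, hπ⟩ := exists_perm (Nat.le_add_right n k) hS
  refine ⟨π, ?_⟩
  set w := TT (A := A) (B := B) ρ π v with hw
  let ψ : (tp X n ⟶ tp X n) →ₗ[ℚ] Module.End ℚ (A ⊗ tp X (n + k) ⟶ B ⊗ tp X (n + k)) :=
    { toFun := fun x =>
        { toFun := fun v => v ≫ (B ◁ wk k x)
          map_add' := fun x y => Preadditive.add_comp _ _ _ _ _ _
          map_smul' := fun c x => Linear.smul_comp _ _ _ _ _ _ }
      map_add' := fun x y => by
        ext v
        simp only [wk_add, MonoidalPreadditive.whiskerLeft_add, LinearMap.coe_mk, AddHom.coe_mk,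
          LinearMap.add_apply, Preadditive.comp_add]
      map_smul' := fun c x => by
        ext v
        simp only [wk_smul, MonoidalLinear.whiskerLeft_smul, LinearMap.coe_mk, AddHom.coe_mk,
          LinearMap.smul_apply, Linear.comp_smul, RingHom.id_apply] }
  refine psi_asym hη w n ψ ?_ ?_ ?_
  · intro x y
    ext v
    simp only [ψ, wk_comp, MonoidalCategory.whiskerLeft_comp, LinearMap.coe_mk, AddHom.coe_mk,
      Module.End.mul_apply, Category.assoc]
  · ext v
    simp only [ψ, wk_id, MonoidalCategory.whiskerLeft_id, LinearMap.coe_mk, AddHom.coe_mk,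
      Module.End.one_apply, Category.comp_id]
  · intro s hs
    obtain ⟨i, hi, rfl⟩ := exists_adj X hs
    have h1 : ψ (adj X n i) w = TT (A := A) (B := B) ρ
        (Equiv.swap ⟨i, by omega⟩ ⟨i + 1, by omega⟩) w := by
      rw [TT_apply, hρ i (by omega)]
      change w ≫ (B ◁ wk k (adj X n i)) = _
      rw [wk_adj hi]
    rw [h1, hw]
    have h2 : (Equiv.swap (⟨i, by omega⟩ : Fin (n + k)) ⟨i + 1, by omega⟩) =
        Equiv.swap (π (π.symm ⟨i, by omega⟩)) (π (π.symm ⟨i + 1, by omega⟩)) := by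
      rw [Equiv.apply_symm_apply, Equiv.apply_symm_apply]
    rw [h2, ← T_conj, hv, map_smul]
    · rw [hπ, Equiv.apply_symm_apply]
      change i < n
      omega
    · rw [hπ, Equiv.apply_symm_apply]
      exact hi
    · intro h3
      have h4 := π.symm.injective h3
      simp only [Fin.mk.injEq] at h4
      omega

/-- Anticommutation with the exchanges implies the compatibility with (anti)symmetrizers of
opposite signs. -/
lemma anti_asym {τ : ℚ} {X P Q : C} (f : P ⟶ Q) : ∀ (m : ℕ)
    (φ : (tp X m ⟶ tp X m) →ₗ[ℚ] (P ⟶ P)) (φ' : (tp X m ⟶ tp X m) →ₗ[ℚ] (Q ⟶ Q)),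
    (∀ x y, φ (x ≫ y) = φ x ≫ φ y) → (∀ x y, φ' (x ≫ y) = φ' x ≫ φ' y) →
    φ (𝟙 _) = 𝟙 _ → φ' (𝟙 _) = 𝟙 _ →
    (∀ s, IsSwap X m s → f ≫ φ' s = -(φ s ≫ f)) →
    f ≫ φ' (asym (-τ) X m) = φ (asym τ X m) ≫ f := by
  intro m
  induction m with
  | zero =>
    intro φ φ' _ _ h1 h1' _
    rw [asym_zero, asym_zero, h1, h1', Category.comp_id, Category.id_comp]
  | succ m ih =>
    intro φ φ' hm hm' h1 h1' hs
    rcases m with - | m
    · rw [asym_one, asym_one, h1, h1', Category.comp_id, Category.id_comp]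
    · let ψ : (tp X (m + 1) ⟶ tp X (m + 1)) →ₗ[ℚ] (P ⟶ P) :=
        { toFun := fun x => φ (x ▷ X)
          map_add' := fun x y => by
            rw [MonoidalPreadditive.add_whiskerRight, map_add]
          map_smul' := fun c x => by
            rw [MonoidalLinear.smul_whiskerRight, map_smul, RingHom.id_apply] }
      let ψ' : (tp X (m + 1) ⟶ tp X (m + 1)) →ₗ[ℚ] (Q ⟶ Q) :=
        { toFun := fun x => φ' (x ▷ X)
          map_add' := fun x y => by
            rw [MonoidalPreadditive.add_whiskerRight, map_add]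
          map_smul' := fun c x => by
            rw [MonoidalLinear.smul_whiskerRight, map_smul, RingHom.id_apply] }
      have h2 : f ≫ φ' (asym (-τ) X (m + 1) ▷ X) = φ (asym τ X (m + 1) ▷ X) ≫ f :=
        ih ψ ψ' (fun x y => by
          change φ ((x ≫ y) ▷ X) = φ (x ▷ X) ≫ φ (y ▷ X)
          rw [comp_whiskerRight, hm]) (fun x y => by
          change φ' ((x ≫ y) ▷ X) = φ' (x ▷ X) ≫ φ' (y ▷ X)
          rw [comp_whiskerRight, hm']) (by
          change φ ((𝟙 _) ▷ X) = 𝟙 _
          rw [id_whiskerRight, h1]) (by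
          change φ' ((𝟙 _) ▷ X) = 𝟙 _
          rw [id_whiskerRight, h1']) (fun s hs' => hs _ (IsSwap.lift _ _ hs'))
      have h3 : f ≫ φ' (sw (tp X m) X) = -(φ (sw (tp X m) X) ≫ f) := hs _ (IsSwap.last m)
      have h4 : f ≫ φ' ((asym (-τ) X (m + 1) ▷ X) ≫ sw (tp X m) X ≫ (asym (-τ) X (m + 1) ▷ X)) =
          -(φ ((asym τ X (m + 1) ▷ X) ≫ sw (tp X m) X ≫ (asym τ X (m + 1) ▷ X)) ≫ f) := by
        rw [hm', hm', hm, hm, reassoc_of% h2, reassoc_of% h3, Preadditive.neg_comp,
          Preadditive.comp_neg, Category.assoc, h2]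
        simp only [Category.assoc]
      rw [asym_succ, asym_succ, map_smul, map_smul, map_add, map_add, map_smul, map_smul,
        Linear.comp_smul, Linear.smul_comp, Preadditive.comp_add, Preadditive.add_comp,
        Linear.comp_smul, Linear.smul_comp, h2, h4, neg_mul, neg_smul, smul_neg, neg_neg]

/-- Operators on a high tensor power of `X` which anticommute with the exchanges vanish, if the
`n`-th exterior or symmetric power of `X` vanishes. -/
theorem anti_eq_zero {τ : ℚ} (hτ : τ = 1 ∨ τ = -1) {X : C} {n k : ℕ} (hX : asym τ X n = 0)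
    (hnk : n * n ≤ n + k) {A B : C} (f : A ⊗ tp X (n + k) ⟶ B ⊗ tp X (n + k))
    (hf : ∀ i, i + 1 < n + k → f ≫ (B ◁ adj X (n + k) i) =
      -((A ◁ adj X (n + k) i) ≫ f)) : f = 0 := by
  have hττ : τ * τ = 1 := by rcases hτ with rfl | rfl <;> norm_num
  have hnn : (-τ) * (-τ) = 1 := by rw [neg_mul_neg, hττ]
  obtain ⟨ρ, hρ⟩ := exists_rho' X (n + k)
  let T := TT (A := A) (B := B) ρ
  let U : Submodule ℚ (A ⊗ tp X (n + k) ⟶ B ⊗ tp X (n + k)) :=
    Submodule.span ℚ (Set.range fun g => T g f)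
  have hst : ∀ g, ∀ u ∈ U, T g u ∈ U := by
    intro g u hu
    induction hu using Submodule.span_induction with
    | mem x hx =>
      obtain ⟨h, rfl⟩ := hx
      refine Submodule.subset_span ⟨g * h, ?_⟩
      exact (T_mul g h f).symm
    | zero => rw [map_zero]; exact U.zero_mem
    | add x y _ _ hx hy => rw [map_add]; exact U.add_mem hx hy
    | smul c x _ hx => rw [map_smul]; exact U.smul_mem c hx
  have hfU : f ∈ U := Submodule.subset_span ⟨1, by simp [T]⟩
  -- the sign `τ`
  have hcol : ∀ S : Finset (Fin (n + k)), S.card = n → ∀ v ∈ U, Inv T τ S v → v = 0 := by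
    intro S hS v _ hv
    obtain ⟨π, hπ⟩ := fixed_of_inv hττ hρ hS hv
    rw [hX, wk_zero, MonoidalPreadditive.whiskerLeft_zero, comp_zero] at hπ
    have h1 : T π⁻¹ (T π v) = v := by rw [T_mul, inv_mul_cancel, map_one, Module.End.one_apply]
    rw [← h1]
    change T π⁻¹ (TT (A := A) (B := B) ρ π v) = 0
    rw [← hπ, map_zero]
  -- the anticommutation
  have hanti : ∀ g : Equiv.Perm (Fin (n + k)), ∃ c : ℚ,
      f ≫ (B ◁ (ρ g : tp X (n + k) ⟶ tp X (n + k))) =
        c • ((A ◁ (ρ g : tp X (n + k) ⟶ tp X (n + k))) ≫ f) := by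
    refine perm_induction ?_ ?_ ?_
    · exact ⟨1, by simp [End.one_def]⟩
    · rintro g h ⟨c, hc⟩ ⟨c', hc'⟩
      refine ⟨c' * c, ?_⟩
      rw [map_mul, End.mul_def, MonoidalCategory.whiskerLeft_comp,
        MonoidalCategory.whiskerLeft_comp, ← Category.assoc, hc', Linear.smul_comp,
        Category.assoc, hc, Linear.comp_smul, smul_smul, Category.assoc]
    · intro i hi
      refine ⟨-1, ?_⟩
      rw [hρ i hi, hf i hi, neg_smul, one_smul]
  have hasym : f ≫ (B ◁ wk k (asym (-τ) X n)) = 0 := by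
    let φ : (tp X n ⟶ tp X n) →ₗ[ℚ] (A ⊗ tp X (n + k) ⟶ A ⊗ tp X (n + k)) :=
      { toFun := fun x => A ◁ wk k x
        map_add' := fun x y => by rw [wk_add, MonoidalPreadditive.whiskerLeft_add]
        map_smul' := fun c x => by
          rw [wk_smul, MonoidalLinear.whiskerLeft_smul, RingHom.id_apply] }
    let φ' : (tp X n ⟶ tp X n) →ₗ[ℚ] (B ⊗ tp X (n + k) ⟶ B ⊗ tp X (n + k)) :=
      { toFun := fun x => B ◁ wk k x
        map_add' := fun x y => by rw [wk_add, MonoidalPreadditive.whiskerLeft_add]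
        map_smul' := fun c x => by
          rw [wk_smul, MonoidalLinear.whiskerLeft_smul, RingHom.id_apply] }
    have h1 := anti_asym (τ := τ) f n φ φ' (fun x y => by
        change A ◁ wk k (x ≫ y) = A ◁ wk k x ≫ A ◁ wk k y
        rw [wk_comp, MonoidalCategory.whiskerLeft_comp]) (fun x y => by
        change B ◁ wk k (x ≫ y) = B ◁ wk k x ≫ B ◁ wk k y
        rw [wk_comp, MonoidalCategory.whiskerLeft_comp]) (by
        change A ◁ wk k (𝟙 _) = 𝟙 _
        rw [wk_id, MonoidalCategory.whiskerLeft_id]) (by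
        change B ◁ wk k (𝟙 _) = 𝟙 _
        rw [wk_id, MonoidalCategory.whiskerLeft_id]) (fun s hs => by
        obtain ⟨i, hi, rfl⟩ := exists_adj X hs
        change f ≫ (B ◁ wk k (adj X n i)) = -((A ◁ wk k (adj X n i)) ≫ f)
        rw [wk_adj hi]
        exact hf i (by omega))
    have h2 : φ (asym τ X n) = 0 := by rw [hX, map_zero]
    rw [h2, zero_comp] at h1
    exact h1
  have hU : ∀ u ∈ U, u ≫ (B ◁ wk k (asym (-τ) X n)) = 0 := by
    intro u hu
    induction hu using Submodule.span_induction with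
    | mem x hx =>
      obtain ⟨g, rfl⟩ := hx
      obtain ⟨c, hc⟩ := hanti g
      change (f ≫ (B ◁ (ρ g : tp X (n + k) ⟶ tp X (n + k)))) ≫ _ = 0
      rw [hc, Linear.smul_comp, Category.assoc, hasym, comp_zero, smul_zero]
    | zero => rw [zero_comp]
    | add x y _ _ hx hy => rw [Preadditive.add_comp, hx, hy, add_zero]
    | smul c x _ hx => rw [Linear.smul_comp, hx, smul_zero]
  have hrow : ∀ S : Finset (Fin (n + k)), S.card = n → ∀ v ∈ U, Inv T (-τ) S v → v = 0 := by
    intro S hS v hvU hv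
    obtain ⟨π, hπ⟩ := fixed_of_inv hnn hρ hS hv
    have h2 : TT (A := A) (B := B) ρ π v = 0 := by
      rw [← hπ]
      exact hU _ (hst π v hvU)
    have h1 : T π⁻¹ (T π v) = v := by rw [T_mul, inv_mul_cancel, map_one, Module.End.one_apply]
    rw [← h1]
    change T π⁻¹ (TT (A := A) (B := B) ρ π v) = 0
    rw [h2, map_zero]
  have hcard : n * n ≤ Fintype.card (Fin (n + k)) := by rwa [Fintype.card_fin]
  rcases hτ with rfl | rfl
  · exact eq_zero_of_no_inv hcard U (fun i j => hst _) hcol hrow f hfU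
  · rw [neg_neg] at hrow
    exact eq_zero_of_no_inv hcard U (fun i j => hst _) hrow hcol f hfU

end

end Pool.Agent.K3h8.KS
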