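import Pool.Agent.Y112.KD.Zip

/-!
# Blocks: tensor powers of a tensor product and operators on the first components
-/

set_option autoImplicit false
set_option linter.unusedSectionVars false
set_option linter.unusedSimpArgs false

open CategoryTheory Limits MonoidalCategory
open Pool.Agent.Y112.KD

namespace Pool.Agent.K3h8.KS

universe v u

section

variable {C : Type u} [Category.{v} C] [MonoidalCategory C] [SymmetricCategory C]

/-- The inverse of `zip`. -/
def unzip (A B : C) : ∀ n : ℕ, (tp A n ⊗ tp B n ⟶ tp (A ⊗ B) n)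
  | 0 => (λ_ (𝟙_ C)).hom
  | n + 1 => tensorδ (tp A n) (tp B n) A B ≫ (unzip A B n ▷ (A ⊗ B))

lemma unzip_succ (A B : C) (n : ℕ) : unzip A B (n + 1) =
    tensorδ (tp A n) (tp B n) A B ≫ (unzip A B n ▷ (A ⊗ B)) := rfl

lemma zip_unzip (A B : C) (n : ℕ) : zip A B n ≫ unzip A B n = 𝟙 _ := by
  induction n with
  | zero => simp [zip, unzip]
  | succ n ih =>
    rw [zip_succ, unzip_succ, Category.assoc, tensorμ_tensorδ_assoc, ← comp_whiskerRight, ih,
      id_whiskerRight]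

lemma unzip_zip (A B : C) (n : ℕ) : unzip A B n ≫ zip A B n = 𝟙 _ := by
  induction n with
  | zero => simp [zip, unzip]
  | succ n ih =>
    rw [zip_succ, unzip_succ, Category.assoc, ← comp_whiskerRight_assoc, ih]
    simp

lemma mu_braid (X₁ X₂ Y₁ Y₂ : C) :
    tensorμ X₁ X₂ Y₁ Y₂ ≫ (β_ (X₁ ⊗ Y₁) (X₂ ⊗ Y₂)).hom =
      ((β_ X₁ X₂).hom ⊗ₘ (β_ Y₁ Y₂).hom) ≫ tensorμ X₂ X₁ Y₂ Y₁ := by
  simp [tensorμ, SymmetricCategory.braiding_swap_eq_inv_braiding Y₁ X₂,
    MonoidalCategory.tensorHom_def]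

end

section

variable {C : Type u} [Category.{v} C] [MonoidalCategory C] [SymmetricCategory C]
  [Preadditive C] [Linear ℚ C] [MonoidalPreadditive C] [MonoidalLinear ℚ C]

lemma tpm_succ {X Y : C} (f : X ⟶ Y) (n : ℕ) : tpm f (n + 1) = tpm f n ⊗ₘ f := rfl

lemma zip_nat {A A' B B' : C} (f : A ⟶ A') (g : B ⟶ B') (n : ℕ) :
    tpm (f ⊗ₘ g) n ≫ zip A' B' n = zip A B n ≫ (tpm f n ⊗ₘ tpm g n) := by
  induction n with
  | zero => simp [tpm, zip]
  | succ n ih =>
    rw [zip_succ, zip_succ, tpm_succ, tpm_succ, tpm_succ, Category.assoc, ← tensorμ_natural,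
      ← Category.assoc, ← Category.assoc]
    congr 1
    rw [← tensorHom_id, ← tensorHom_id, tensorHom_comp_tensorHom, tensorHom_comp_tensorHom, ih,
      Category.id_comp, Category.comp_id]

lemma unzip_nat {A A' B B' : C} (f : A ⟶ A') (g : B ⟶ B') (n : ℕ) :
    unzip A B n ≫ tpm (f ⊗ₘ g) n = (tpm f n ⊗ₘ tpm g n) ≫ unzip A' B' n := by
  have h1 := congrArg (fun z => unzip A B n ≫ z ≫ unzip A' B' n) (zip_nat f g n)
  simp only [Category.assoc, zip_unzip, Category.comp_id] at h1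
  rw [h1, ← Category.assoc, unzip_zip, Category.id_comp]

lemma zip_nat_right {A B B' : C} (g : B ⟶ B') (n : ℕ) :
    tpm (A ◁ g) n ≫ zip A B' n = zip A B n ≫ (tp A n ◁ tpm g n) := by
  have := zip_nat (𝟙 A) g n
  rwa [tpm_id, id_tensorHom, id_tensorHom] at this

lemma unzip_nat_right {A B B' : C} (g : B ⟶ B') (n : ℕ) :
    unzip A B n ≫ tpm (A ◁ g) n = (tp A n ◁ tpm g n) ≫ unzip A B' n := by
  have := unzip_nat (𝟙 A) g n
  rwa [tpm_id, id_tensorHom, id_tensorHom] at this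

lemma zip_nat_left {A A' B : C} (f : A ⟶ A') (n : ℕ) :
    tpm (f ▷ B) n ≫ zip A' B n = zip A B n ≫ (tpm f n ▷ tp B n) := by
  have := zip_nat f (𝟙 B) n
  rwa [tpm_id, tensorHom_id, tensorHom_id] at this

lemma unzip_nat_left {A A' B : C} (f : A ⟶ A') (n : ℕ) :
    unzip A B n ≫ tpm (f ▷ B) n = (tpm f n ▷ tp B n) ≫ unzip A' B n := by
  have := unzip_nat f (𝟙 B) n
  rwa [tpm_id, tensorHom_id, tensorHom_id] at this

/-- Associativity of `zip`. -/
lemma zip_assoc (A B T : C) (n : ℕ) :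
    tpm (α_ A B T).hom n ≫ zip A (B ⊗ T) n ≫ (tp A n ◁ zip B T n) =
      zip (A ⊗ B) T n ≫ (zip A B n ▷ tp T n) ≫ (α_ (tp A n) (tp B n) (tp T n)).hom := by
  induction n with
  | zero =>
    simp only [tpm, zip]
    monoidal
  | succ n ih =>
    have h1 := associator_monoidal (tp A n) (tp B n) (tp T n) A B T
    have e1 : tpm (α_ A B T).hom (n + 1) ≫ zip A (B ⊗ T) (n + 1) =
        ((tpm (α_ A B T).hom n ≫ zip A (B ⊗ T) n) ⊗ₘ (α_ A B T).hom) ≫
          tensorμ (tp A n) (tp (B ⊗ T) n) A (B ⊗ T) := by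
      rw [tpm_succ, zip_succ, ← Category.assoc]
      congr 1
      rw [← tensorHom_id, tensorHom_comp_tensorHom, Category.comp_id]
    have e2 : tensorμ (tp A n) (tp (B ⊗ T) n) A (B ⊗ T) ≫ ((tp A n ⊗ A) ◁ (zip B T n ▷ (B ⊗ T))) =
        ((tp A n ◁ zip B T n) ▷ (A ⊗ (B ⊗ T))) ≫ tensorμ (tp A n) (tp B n ⊗ tp T n) A (B ⊗ T) := by
      have := tensorμ_natural_left (𝟙 (tp A n)) (zip B T n) A (B ⊗ T)
      rw [id_tensorHom, id_whiskerRight, id_tensorHom] at this
      exact this.symm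
    have e3 : zip (A ⊗ B) T (n + 1) ≫ (zip A B (n + 1) ▷ tp T (n + 1)) =
        ((zip (A ⊗ B) T n ≫ (zip A B n ▷ tp T n)) ▷ ((A ⊗ B) ⊗ T)) ≫
          tensorμ (tp A n ⊗ tp B n) (tp T n) (A ⊗ B) T ≫
          (tensorμ (tp A n) (tp B n) A B ▷ (tp T n ⊗ T)) := by
      rw [zip_succ (A ⊗ B) T, zip_succ A B, comp_whiskerRight, Category.assoc]
      have := tensorμ_natural_left (zip A B n) (𝟙 (tp T n)) (A ⊗ B) T
      rw [tensorHom_id, id_whiskerRight, tensorHom_id] at this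
      rw [comp_whiskerRight, Category.assoc]
      congr 1
      rw [← Category.assoc, ← Category.assoc, this]
    rw [← Category.assoc, e1, Category.assoc, zip_succ B T, MonoidalCategory.whiskerLeft_comp,
      reassoc_of% e2]
    rw [← Category.assoc (zip (A ⊗ B) T (n + 1)), e3]
    simp only [Category.assoc]
    rw [h1]
    simp only [← Category.assoc]
    congr 2
    rw [← tensorHom_id, ← tensorHom_id, tensorHom_comp_tensorHom, tensorHom_comp_tensorHom,
      Category.assoc, ih, Category.comp_id, Category.id_comp]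
    simp only [Category.assoc]

/-- `zip` and the braiding. -/
lemma zip_braid (A B : C) (n : ℕ) :
    tpm (β_ A B).hom n ≫ zip B A n = zip A B n ≫ (β_ (tp A n) (tp B n)).hom := by
  induction n with
  | zero =>
    simp only [tpm, zip, Category.id_comp, braiding_tensorUnit_left]
    simp only [Iso.inv_hom_id_assoc]
    exact unitors_inv_equal
  | succ n ih =>
    rw [tpm_succ, zip_succ, zip_succ, Category.assoc, mu_braid, ← Category.assoc,
      ← Category.assoc]
    congr 1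
    rw [← tensorHom_id, ← tensorHom_id, tensorHom_comp_tensorHom, tensorHom_comp_tensorHom, ih,
      Category.id_comp, Category.comp_id]

lemma tpm_smul {X Y : C} (c : ℚ) (f : X ⟶ Y) (n : ℕ) : tpm (c • f) n = c ^ n • tpm f n := by
  induction n with
  | zero => simp [tpm]
  | succ n ih =>
    rw [tpm_succ, tpm_succ, ih, MonoidalCategory.tensorHom_def, MonoidalCategory.tensorHom_def,
      MonoidalLinear.smul_whiskerRight, MonoidalLinear.whiskerLeft_smul, Linear.comp_smul,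
      Linear.smul_comp, smul_smul, pow_succ, mul_comm]

/-- The operator of the blocks `q : E ⊗ L ⟶ E ⊗ L'` vanishes between `a` and `a'`. -/
def Blk {E : C} {n : ℕ} (a a' : tp E n ⟶ tp E n) {L L' : C} (q : E ⊗ L ⟶ E ⊗ L') : Prop :=
  (a ▷ tp L n) ≫ unzip E L n ≫ tpm q n ≫ zip E L' n ≫ (a' ▷ tp L' n) = 0

variable {E : C} {n : ℕ} {a a' : tp E n ⟶ tp E n}

lemma Blk.comp {L L' L₁ L₁' : C} {q : E ⊗ L ⟶ E ⊗ L'} (h : Blk a a' q) (g : L₁ ⟶ L)
    (g' : L' ⟶ L₁') : Blk a a' ((E ◁ g) ≫ q ≫ (E ◁ g')) := by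
  unfold Blk at h ⊢
  rw [← tpm_comp, ← tpm_comp]
  simp only [Category.assoc]
  rw [reassoc_of% (zip_nat_right g' n), whisker_exchange, reassoc_of% (unzip_nat_right g n),
    ← whisker_exchange_assoc]
  have h1 := congrArg (fun z => (tp E n ◁ tpm g n) ≫ z ≫ (tp E n ◁ tpm g' n)) h
  simpa only [Category.assoc, zero_comp, comp_zero] using h1

lemma Blk.whisker {L L' : C} {q : E ⊗ L ⟶ E ⊗ L'} (h : Blk a a' q) (T : C) :
    Blk a a' ((α_ E L T).inv ≫ (q ▷ T) ≫ (α_ E L' T).hom) := by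
  unfold Blk at h ⊢
  have h1 : unzip E (L ⊗ T) n ≫ tpm (α_ E L T).inv n =
      (tp E n ◁ zip L T n) ≫ (α_ (tp E n) (tp L n) (tp T n)).inv ≫ (unzip E L n ▷ tp T n) ≫
        unzip (E ⊗ L) T n := by
    have e1 := zip_assoc E L T n
    have e2 : tpm (α_ E L T).inv n ≫ tpm (α_ E L T).hom n = 𝟙 _ := by
      rw [tpm_comp, Iso.inv_hom_id, tpm_id]
    have e3 := congrArg (fun z => unzip E (L ⊗ T) n ≫ tpm (α_ E L T).inv n ≫ z ≫
      (α_ (tp E n) (tp L n) (tp T n)).inv ≫ (unzip E L n ▷ tp T n) ≫ unzip (E ⊗ L) T n) e1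
    simp only [Category.assoc, reassoc_of% e2, Iso.hom_inv_id_assoc] at e3
    have e4 : unzip E (L ⊗ T) n ≫ zip E (L ⊗ T) n = 𝟙 _ := unzip_zip _ _ _
    have e5 : (zip E L n ▷ tp T n) ≫ (unzip E L n ▷ tp T n) = 𝟙 _ := by
      rw [← comp_whiskerRight, zip_unzip, id_whiskerRight]
    rw [reassoc_of% e4, reassoc_of% e5, zip_unzip, Category.comp_id] at e3
    exact e3.symm
  have h2 : tpm (α_ E L' T).hom n ≫ zip E (L' ⊗ T) n =
      zip (E ⊗ L') T n ≫ (zip E L' n ▷ tp T n) ≫ (α_ (tp E n) (tp L' n) (tp T n)).hom ≫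
        (tp E n ◁ unzip L' T n) := by
    have e1 := congrArg (fun z => z ≫ (tp E n ◁ unzip L' T n)) (zip_assoc E L' T n)
    simp only [Category.assoc] at e1
    rw [← e1, ← MonoidalCategory.whiskerLeft_comp, zip_unzip]
    simp
  have h3 : unzip (E ⊗ L) T n ≫ tpm (q ▷ T) n ≫ zip (E ⊗ L') T n = tpm q n ▷ tp T n := by
    rw [zip_nat_left, ← Category.assoc, unzip_zip, Category.id_comp]
  rw [← tpm_comp, ← tpm_comp]
  simp only [Category.assoc]
  rw [reassoc_of% h1, reassoc_of% h2, reassoc_of% h3]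
  have h4 := congrArg (fun z => (tp E n ◁ zip L T n) ≫ (α_ (tp E n) (tp L n) (tp T n)).inv ≫
    (z ▷ tp T n) ≫ (α_ (tp E n) (tp L' n) (tp T n)).hom ≫ (tp E n ◁ unzip L' T n)) h
  simp only [comp_whiskerRight, Category.assoc, MonoidalPreadditive.zero_whiskerRight, zero_comp,
    comp_zero] at h4
  rw [← h4]
  rw [← whisker_exchange_assoc, associator_inv_naturality_left_assoc,
    associator_naturality_left_assoc, whisker_exchange]

lemma Blk.braid {c : ℚ} (hc : c ≠ 0) (h : Blk a a' (c • (β_ E E).hom : E ⊗ E ⟶ E ⊗ E)) :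
    a ⊗ₘ a' = 0 := by
  unfold Blk at h
  rw [tpm_smul, Linear.smul_comp, Linear.comp_smul, Linear.comp_smul] at h
  have h1 := (smul_eq_zero.1 h).resolve_left (pow_ne_zero n hc)
  rw [reassoc_of% (zip_braid E E n), ← Category.assoc (unzip E E n), unzip_zip,
    Category.id_comp, ← BraidedCategory.braiding_naturality_right] at h1
  have h2 := congrArg (fun z => z ≫ (β_ (tp E n) (tp E n)).inv) h1
  simp only [Category.assoc, Iso.hom_inv_id, Category.comp_id, zero_comp] at h2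
  rw [MonoidalCategory.tensorHom_def]
  exact h2

end

end Pool.Agent.K3h8.KS
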