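import Pool.Agent.R905.Defs
import Pool.Agent.Y112.SR.Defs

/-!
# Symmetric and exterior powers, and objects built from a given one: definitions
-/

set_option autoImplicit false

open CategoryTheory Limits MonoidalCategory
open Pool.Agent.Y112.KD
open Pool.Agent.Y112.SR (SuperRealisation)

namespace Pool.Agent.K3h8.KS

universe v u w

section

variable {C : Type u} [Category.{v} C] [MonoidalCategory C] [SymmetricCategory C]
  [Preadditive C] [Linear ℚ C]

/-- `T` is the `n`-th symmetric power (for `η = 1`) or the `n`-th exterior power (for `η = -1`)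
of `M`: it has a universal morphism `r` from `M ⊗ ⋯ ⊗ M` (`n` factors) with `r ∘ s = η r` for all
exchanges `s` of two neighbouring factors. -/
def IsPower (η : ℚ) (M T : C) (n : ℕ) : Prop :=
  ∃ r : tp M n ⟶ T, (∀ s, IsSwap M n s → s ≫ r = η • r) ∧
    ∀ (Z : C) (h : tp M n ⟶ Z), (∀ s, IsSwap M n s → s ≫ h = η • h) →
      ∃! g : T ⟶ Z, r ≫ g = h

variable {K : Type w} [Field K]

/-- `T` is built from `M` by symmetric powers, exterior powers, tensor products with objects `N`
(the realisations of both factors being nonzero), and by adding direct summands: the last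
constructor passes from `T` to an object `T'` with direct summand `T`. -/
inductive Built (R : SuperRealisation C K) (M : C) : C → Prop
  | base : Built R M M
  | sym {T T' : C} (n : ℕ) : Built R M T → 1 ≤ n → IsPower 1 T T' n → Built R M T'
  | ext {T T' : C} (n : ℕ) : Built R M T → 1 ≤ n → IsPower (-1) T T' n → Built R M T'
  | tensor {T : C} (N : C) : Built R M T → ¬ IsZero (R.H.obj T) → ¬ IsZero (R.H.obj N) →
      Built R M (T ⊗ N)
  | summand {T T' : C} (i : T ⟶ T') (r : T' ⟶ T) : Built R M T → i ≫ r = 𝟙 T → Built R M T'

end

end Pool.Agent.K3h8.KS
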