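import Pool.Agent.K3h8.KS.Step

/-!
# From blocks with (anti)symmetrized components to blocks of exchanges
-/

set_option autoImplicit false
set_option linter.unusedSectionVars false
set_option linter.unusedSimpArgs false

open CategoryTheory Limits MonoidalCategory
open Pool.Agent.Y112.KD
open Pool.Agent.Y112.SR (ptr ptr_symm)
open Pool.Agent.Y116.MT (tr)

namespace Pool.Agent.K3h8.KS

universe v u

section

variable {C : Type u} [Category.{v} C] [MonoidalCategory C] [SymmetricCategory C]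
  [Preadditive C] [Linear ℚ C] [MonoidalPreadditive C] [MonoidalLinear ℚ C]
  [RightRigidCategory C]

/-- The exchange of `E` with the factor of `E`, (anti)symmetrized. -/
noncomputable def xx (η : ℚ) (E : C) : ∀ k : ℕ, (E ⊗ tp E (k + 1) ⟶ E ⊗ tp E (k + 1))
  | 0 => (E ◁ (λ_ E).hom) ≫ (β_ E E).hom ≫ (E ◁ (λ_ E).inv)
  | k + 1 => II η (xx η E k)

/-- The (anti)symmetrizer. -/
noncomputable def yy (η : ℚ) (E : C) (k : ℕ) : E ⊗ tp E (k + 1) ⟶ E ⊗ tp E (k + 1) :=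
  E ◁ asym η E (k + 1)

lemma xx_absorb {η : ℚ} (hη : η * η = 1) (E : C) (k : ℕ) :
    (E ◁ asym η E (k + 1)) ≫ xx η E k = xx η E k ∧
      xx η E k ≫ (E ◁ asym η E (k + 1)) = xx η E k := by
  rcases k with - | k
  · rw [asym_one]
    simp
  · exact II_absorb hη _

lemma yy_absorb {η : ℚ} (hη : η * η = 1) (E : C) (k : ℕ) :
    (E ◁ asym η E (k + 1)) ≫ yy η E k = yy η E k ∧
      yy η E k ≫ (E ◁ asym η E (k + 1)) = yy η E k := by
  rw [yy, ← MonoidalCategory.whiskerLeft_comp, asym_idem hη]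
  exact ⟨rfl, rfl⟩

lemma ptr_asym {η : ℚ} (hη : η * η = 1) {E : C} {δ : ℚ} (ht : tr (𝟙 E) = δ • 𝟙 _) (k : ℕ) :
    ptr (asym η E (k + 2)) = ((((k + 1 : ℕ) : ℚ) + 1)⁻¹ * (δ + η * ((k + 1 : ℕ) : ℚ))) •
      asym η E (k + 1) := by
  have h1 : ptr (asym η E (k + 1) ▷ E) = δ • asym η E (k + 1) := by
    have := ptr_tensor (asym η E (k + 1)) (𝟙 E) δ ht
    rwa [tensorHom_id] at this
  rw [asym_succ, ptr_smul, ptr_add, ptr_smul, ptr_comp, ptr_sw, Category.id_comp,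
    asym_idem hη, h1, ← add_smul, smul_smul]

lemma PP_yy {η : ℚ} (hη : η * η = 1) {E : C} {δ : ℚ} (ht : tr (𝟙 E) = δ • 𝟙 _) (k : ℕ) :
    PP (yy η E (k + 1)) = ((((k + 1 : ℕ) : ℚ) + 1)⁻¹ * (δ + η * ((k + 1 : ℕ) : ℚ))) •
      yy η E k := by
  rw [yy, PP_left, ptr_asym hη ht, MonoidalLinear.whiskerLeft_smul, yy]

lemma PP_xx_zero (η : ℚ) (E : C) : PP (xx η E 0) = 𝟙 _ := by
  have h1 : (α_ E (𝟙_ C) E).hom ≫ xx η E 0 ≫ (α_ E (𝟙_ C) E).inv =
      ((ρ_ E).hom ▷ E) ≫ (β_ E E).hom ≫ ((ρ_ E).inv ▷ E) := by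
    rw [xx]
    simp only [Category.assoc]
    have e1 : (E ◁ (λ_ E).inv) ≫ (α_ E (𝟙_ C) E).inv = (ρ_ E).inv ▷ E := by monoidal
    have e2 : (α_ E (𝟙_ C) E).hom ≫ (E ◁ (λ_ E).hom) = (ρ_ E).hom ▷ E := by monoidal
    rw [reassoc_of% e2, e1]
  have h2 : PP (xx η E 0) = ptr ((α_ E (𝟙_ C) E).hom ≫ xx η E 0 ≫ (α_ E (𝟙_ C) E).inv) := rfl
  rw [h2, h1, ptr_comp', ptr_symm]
  simp

/-- coefficient of the exchange -/
noncomputable def cA (δ η : ℚ) (k : ℕ) : ℚ :=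
  ((k + 1 : ℚ) * (δ + (k + 2) * η)) / ((k + 2 : ℚ) * (k + 2))

/-- coefficient of the identity -/
noncomputable def cB (k : ℕ) : ℚ := 1 / ((k + 2 : ℚ) * (k + 2))

/-- ratio of dimensions -/
noncomputable def cD (δ η : ℚ) (k : ℕ) : ℚ :=
  (((k + 1 : ℕ) : ℚ) + 1)⁻¹ * (δ + η * ((k + 1 : ℕ) : ℚ))

lemma PP_xx {η : ℚ} (hη : η * η = 1) {E : C} {δ : ℚ} (ht : tr (𝟙 E) = δ • 𝟙 _) (k : ℕ) :
    PP (xx η E (k + 1)) = cA δ η k • xx η E k + cB k • yy η E k := by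
  induction k with
  | zero =>
    have h1 := PP_II hη ht 0 (xx η E 0) (xx_absorb hη E 0).1 (xx_absorb hη E 0).2
    have h2 : II η (𝟙 (E ⊗ tp E 0)) = yy η E 0 := by
      have := II_asym hη E 0
      rwa [asym_zero, MonoidalCategory.whiskerLeft_id] at this
    have h3 : xx η E (0 + 1) = II η (xx η E 0) := rfl
    rw [h3, h1, PP_xx_zero, h2, cA, cB]
    norm_num
    module
  | succ k ih =>
    have h1 := PP_II hη ht (k + 1) (xx η E (k + 1)) (xx_absorb hη E (k + 1)).1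
      (xx_absorb hη E (k + 1)).2
    have h2 : II η (yy η E k) = yy η E (k + 1) := II_asym hη E (k + 1)
    have h3 : xx η E (k + 1 + 1) = II η (xx η E (k + 1)) := rfl
    have h4 : II η (xx η E k) = xx η E (k + 1) := rfl
    have e1 : (((k + 1 + 1 : ℕ) : ℚ) + 1)⁻¹ * (((k + 1 + 1 : ℕ) : ℚ) + 1)⁻¹ *
        ((δ + 2 * (η * ((k + 1 + 1 : ℕ) : ℚ))) +
          (((k + 1 + 1 : ℕ) : ℚ) * ((k + 1 + 1 : ℕ) : ℚ)) * cA δ η k) = cA δ η (k + 1) := by
      rw [cA, cA]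
      have f1 : (k : ℚ) + 2 ≠ 0 := by positivity
      have f2 : (k : ℚ) + 3 ≠ 0 := by positivity
      push_cast
      have f3 : (k : ℚ) + 1 + 1 + 1 ≠ 0 := by positivity
      have f4 : (k : ℚ) + 1 + 2 ≠ 0 := by positivity
      field_simp
      ring
    have e2 : (((k + 1 + 1 : ℕ) : ℚ) + 1)⁻¹ * (((k + 1 + 1 : ℕ) : ℚ) + 1)⁻¹ *
          ((((k + 1 + 1 : ℕ) : ℚ) * ((k + 1 + 1 : ℕ) : ℚ)) * cB k) = cB (k + 1) := by
      rw [cB, cB]
      have f1 : (k : ℚ) + 2 ≠ 0 := by positivity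
      push_cast
      have f3 : (k : ℚ) + 1 + 1 + 1 ≠ 0 := by positivity
      have f4 : (k : ℚ) + 1 + 2 ≠ 0 := by positivity
      field_simp
      ring
    rw [h3, h1, ih, II_add, II_smul, II_smul, h4, h2, ← e1, ← e2]
    module

/-- Contracting all factors but one. -/
lemma slice {η : ℚ} (hη : η * η = 1) {E : C} {δ : ℚ} (ht : tr (𝟙 E) = δ • 𝟙 _) (m : ℕ) :
    (∀ k < m, cD δ η k ≠ 0) → ∀ c c0 : ℚ, ∃ γ : ℚ, ∀ (n : ℕ) (a a' : tp E n ⟶ tp E n),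
      Blk a a' (c • xx η E m + γ • yy η E m) →
        Blk a a' ((c * ∏ k ∈ Finset.range m, cA δ η k) • xx η E 0 + c0 • yy η E 0) := by
  induction m with
  | zero =>
    intro _ c c0
    refine ⟨c0, fun n a a' h => ?_⟩
    simpa using h
  | succ m ih =>
    intro hD c c0
    obtain ⟨γ, hγ⟩ := ih (fun k hk => hD k (by omega)) (c * cA δ η m) c0
    have hDm := hD m (by omega)
    refine ⟨(γ - c * cB m) / cD δ η m, fun n a a' h => ?_⟩
    have h1 := h.contract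
    rw [PP_add, PP_smul, PP_smul, PP_xx hη ht, PP_yy hη ht] at h1
    have h2 : c • (cA δ η m • xx η E m + cB m • yy η E m) + ((γ - c * cB m) / cD δ η m) •
        (((((m + 1 : ℕ) : ℚ) + 1)⁻¹ * (δ + η * ((m + 1 : ℕ) : ℚ))) • yy η E m) =
        (c * cA δ η m) • xx η E m + γ • yy η E m := by
      have e1 : ((γ - c * cB m) / cD δ η m) *
          ((((m + 1 : ℕ) : ℚ) + 1)⁻¹ * (δ + η * ((m + 1 : ℕ) : ℚ))) = γ - c * cB m := by
        change ((γ - c * cB m) / cD δ η m) * cD δ η m = _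
        field_simp
      rw [smul_smul ((γ - c * cB m) / cD δ η m), e1]
      module
    rw [h2] at h1
    have h3 := hγ n a a' h1
    rw [Finset.prod_range_succ, mul_comm _ (cA δ η m), ← mul_assoc]
    exact h3

/-- The vanishing of blocks gives the vanishing of a tensor product. -/
lemma tensor_of_blk {η : ℚ} (hη : η * η = 1) {E : C} {δ : ℚ} (ht : tr (𝟙 E) = δ • 𝟙 _) (m : ℕ)
    (hD : ∀ k < m, cD δ η k ≠ 0) (hA : ∀ k < m, cA δ η k ≠ 0) : ∃ γ : ℚ,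
      ∀ (n : ℕ) (a a' : tp E n ⟶ tp E n), Blk a a' (xx η E m + γ • yy η E m) → a ⊗ₘ a' = 0 := by
  obtain ⟨γ, hγ⟩ := slice hη ht m hD 1 0
  refine ⟨γ, fun n a a' h => ?_⟩
  have h1 := hγ n a a' (by rwa [one_smul])
  rw [zero_smul, add_zero, one_mul] at h1
  have h2 := h1.comp (λ_ E).inv (λ_ E).hom
  have h3 : (E ◁ (λ_ E).inv) ≫ ((∏ k ∈ Finset.range m, cA δ η k) • xx η E 0) ≫
      (E ◁ (λ_ E).hom) = (∏ k ∈ Finset.range m, cA δ η k) • (β_ E E).hom := by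
    rw [Linear.smul_comp, Linear.comp_smul, xx]
    congr 1
    simp only [Category.assoc]
    rw [← MonoidalCategory.whiskerLeft_comp, ← MonoidalCategory.whiskerLeft_comp_assoc]
    simp
  have h4 := h2
  rw [h3] at h4
  exact h4.braid (Finset.prod_ne_zero_iff.2 fun k hk => hA k (Finset.mem_range.1 hk))

end

end Pool.Agent.K3h8.KS
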