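import Pool.Agent.K3h8.KS.Anti
import Pool.Agent.K3h8.KS.Slice

/-!
# Vanishing powers of an (anti)symmetric power
-/

set_option autoImplicit false
set_option linter.unusedSectionVars false
set_option linter.unusedSimpArgs false

open CategoryTheory Limits MonoidalCategory
open Pool.Agent.Y112.KD
open Pool.Agent.Y112.SR (ptr ptr_symm)
open Pool.Agent.Y116.MT (tr)

namespace Pool.Agent.K3h8.KS

universe v u

section

variable {C : Type u} [Category.{v} C] [MonoidalCategory C] [SymmetricCategory C]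
  [Preadditive C] [Linear ℚ C] [MonoidalPreadditive C] [MonoidalLinear ℚ C]

lemma zip_adj (A B : C) : ∀ {n i : ℕ}, i + 1 < n → adj (A ⊗ B) n i ≫ zip A B n =
    zip A B n ≫ (adj A n i ⊗ₘ adj B n i) := by
  intro n
  induction n with
  | zero => intro i h; omega
  | succ n ih =>
    intro i h
    by_cases h1 : i + 1 < n
    · rw [adj_lift _ h1, adj_lift _ h1, adj_lift _ h1, zip_succ, ← comp_whiskerRight_assoc, ih h1,
        comp_whiskerRight_assoc, tensorμ_natural_left, Category.assoc]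
    · obtain rfl : n = i + 1 := by omega
      rw [adj_last, adj_last, adj_last, zip_succ, zip_succ, comp_whiskerRight]
      simp only [Category.assoc]
      rw [← sw_mu, reassoc_of% (sw_nat_left (X := A ⊗ B) (zip A B i))]

lemma tpm_adj {X Y : C} (f : X ⟶ Y) : ∀ {n i : ℕ}, i + 1 < n →
    tpm f n ≫ adj Y n i = adj X n i ≫ tpm f n := by
  intro n
  induction n with
  | zero => intro i h; omega
  | succ n ih =>
    intro i h
    by_cases h1 : i + 1 < n
    · rw [adj_lift _ h1, adj_lift _ h1, tpm_succ, ← tensorHom_id, ← tensorHom_id,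
        tensorHom_comp_tensorHom, tensorHom_comp_tensorHom, ih h1, Category.id_comp,
        Category.comp_id]
    · obtain rfl : n = i + 1 := by omega
      rw [adj_last, adj_last]
      exact sw_nat _ _ _

/-- Blocks with a component with a vanishing power vanish between a symmetrizer and an
antisymmetrizer. -/
theorem blk_of_kill {τ : ℚ} (hτ : τ = 1 ∨ τ = -1) {E S : C} {n k : ℕ} (hS : asym τ S n = 0)
    (hnk : n * n ≤ n + k) {ν : ℚ} (hν : ν * ν = 1) (q : E ⊗ S ⟶ E ⊗ S) :
    Blk (asym ν E (n + k)) (asym (-ν) E (n + k)) q := by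
  unfold Blk
  refine anti_eq_zero hτ hS hnk _ fun i hi => ?_
  set M := n + k with hM
  have hν' : (-ν) * (-ν) = 1 := by rw [neg_mul_neg, hν]
  have hs := isSwap_adj E hi
  have a1 : asym ν E M ≫ adj E M i = ν • asym ν E M := (swap_asym hν E hs).2
  have a2 : adj E M i ≫ asym (-ν) E M = (-ν) • asym (-ν) E M := (swap_asym hν' E hs).1
  have z1 := zip_adj E S hi
  have z2 : unzip E S M ≫ adj (E ⊗ S) M i = (adj E M i ⊗ₘ adj S M i) ≫ unzip E S M := by
    have e1 := congrArg (fun z => unzip E S M ≫ z ≫ unzip E S M) z1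
    simp only [Category.assoc, zip_unzip, Category.comp_id] at e1
    rw [e1, ← Category.assoc, unzip_zip, Category.id_comp]
  -- the exchange of the second components on the right
  have s1 : zip E S M ≫ (tp E M ◁ adj S M i) =
      adj (E ⊗ S) M i ≫ zip E S M ≫ (adj E M i ▷ tp S M) := by
    rw [← Category.assoc, z1, Category.assoc, MonoidalCategory.tensorHom_def', Category.assoc,
      ← comp_whiskerRight, adj_sq E hi]
    simp
  have s2 : unzip E S M ≫ adj (E ⊗ S) M i =
      (tp E M ◁ adj S M i) ≫ (adj E M i ▷ tp S M) ≫ unzip E S M := by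
    rw [z2, MonoidalCategory.tensorHom_def', Category.assoc]
  have r1 : (asym ν E M ▷ tp S M ≫ unzip E S M ≫ tpm q M ≫ zip E S M ≫
      asym (-ν) E M ▷ tp S M) ≫ tp E M ◁ adj S M i =
      (-ν) • (asym ν E M ▷ tp S M ≫ unzip E S M ≫ tpm q M ≫ adj (E ⊗ S) M i ≫ zip E S M ≫
        asym (-ν) E M ▷ tp S M) := by
    simp only [Category.assoc]
    rw [← whisker_exchange, reassoc_of% s1, ← comp_whiskerRight, a2,
      MonoidalLinear.smul_whiskerRight]
    simp only [Linear.comp_smul]
  have r2 : asym ν E M ▷ tp S M ≫ unzip E S M ≫ tpm q M ≫ adj (E ⊗ S) M i ≫ zip E S M ≫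
        asym (-ν) E M ▷ tp S M = ν • ((tp E M ◁ adj S M i) ≫ asym ν E M ▷ tp S M ≫
        unzip E S M ≫ tpm q M ≫ zip E S M ≫ asym (-ν) E M ▷ tp S M) := by
    rw [reassoc_of% (tpm_adj q hi), reassoc_of% s2, ← whisker_exchange_assoc,
      ← comp_whiskerRight_assoc, a1, MonoidalLinear.smul_whiskerRight, Linear.smul_comp,
      Linear.comp_smul]
  rw [r1, r2, smul_smul]
  have e1 : -ν * ν = -1 := by rw [neg_mul, hν]
  rw [e1, neg_smul, one_smul]

variable [RightRigidCategory C]

/-- The generic case of the theorem. -/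
theorem tensor_eq_zero {τ : ℚ} (hτ : τ = 1 ∨ τ = -1) {η : ℚ} (hη : η * η = 1) {E S : C} {δ : ℚ}
    (ht : tr (𝟙 E) = δ • 𝟙 _) {m : ℕ} (i : S ⟶ tp E (m + 1)) (r : tp E (m + 1) ⟶ S)
    (hri : r ≫ i = asym η E (m + 1)) {n : ℕ} (hS : asym τ S n = 0)
    (hD : ∀ k < m, cD δ η k ≠ 0) (hA : ∀ k < m, cA δ η k ≠ 0) {k : ℕ} (hnk : n * n ≤ n + k)
    {ν : ℚ} (hν : ν * ν = 1) :
    asym ν E (n + k) ⊗ₘ asym (-ν) E (n + k) = 0 := by
  obtain ⟨γ, hγ⟩ := tensor_of_blk hη ht m hD hA
  apply hγ
  have h1 := (blk_of_kill hτ hS hnk hν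
    ((E ◁ i) ≫ (xx η E m + γ • yy η E m) ≫ (E ◁ r))).comp r i
  have h2 : (E ◁ r) ≫ ((E ◁ i) ≫ (xx η E m + γ • yy η E m) ≫ (E ◁ r)) ≫ (E ◁ i) =
      xx η E m + γ • yy η E m := by
    simp only [Category.assoc]
    rw [← MonoidalCategory.whiskerLeft_comp, ← MonoidalCategory.whiskerLeft_comp_assoc, hri,
      Preadditive.add_comp, Preadditive.comp_add, Linear.smul_comp, Linear.comp_smul,
      (xx_absorb hη E m).2, (xx_absorb hη E m).1, (yy_absorb hη E m).2, (yy_absorb hη E m).1]
  rwa [h2] at h1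

end

end Pool.Agent.K3h8.KS
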