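import Pool.Agent.K3h8.KS.Blocks

/-!
# Contracting the last factor of an (anti)symmetrized exchange
-/

set_option autoImplicit false
set_option linter.unusedSectionVars false
set_option linter.unusedSimpArgs false

open CategoryTheory Limits MonoidalCategory
open Pool.Agent.Y112.KD
open Pool.Agent.Y112.SR (ptr ptr_symm)
open Pool.Agent.Y116.MT (tr)

namespace Pool.Agent.K3h8.KS

universe v u

section

variable {C : Type u} [Category.{v} C] [MonoidalCategory C] [SymmetricCategory C]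
  [RightRigidCategory C]

lemma ptr_comp' {M M' N : C} (a : M' ⟶ M) (b : M ⟶ M') (x : M ⊗ N ⟶ M ⊗ N) :
    ptr (a ▷ N ≫ x ≫ b ▷ N) = a ≫ ptr x ≫ b := by
  simp only [ptr, comp_whiskerRight, Category.assoc]
  rw [associator_naturality_left_assoc, ← whisker_exchange_assoc, rightUnitor_naturality,
    ← associator_inv_naturality_left_assoc, whisker_exchange_assoc,
    ← rightUnitor_inv_naturality_assoc]

lemma ptr_braid_conj {M N P : C} (x : M ⊗ N ⟶ M ⊗ N) :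
    ptr (((β_ M P).hom ▷ N ≫ (α_ P M N).hom) ≫ (P ◁ x) ≫ ((α_ P M N).inv ≫ (β_ M P).inv ▷ N)) =
      ptr x ▷ P := by
  have h1 : ptr (((β_ M P).hom ▷ N ≫ (α_ P M N).hom) ≫ (P ◁ x) ≫
      ((α_ P M N).inv ≫ (β_ M P).inv ▷ N)) = (β_ M P).hom ≫
      ptr ((α_ P M N).hom ≫ (P ◁ x) ≫ (α_ P M N).inv) ≫ (β_ M P).inv := by
    simp only [ptr, comp_whiskerRight, Category.assoc]
    rw [associator_naturality_left_assoc (β_ M P).inv, ← whisker_exchange_assoc,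
      rightUnitor_naturality, ← associator_inv_naturality_left_assoc, whisker_exchange_assoc,
      ← rightUnitor_inv_naturality_assoc]
  rw [h1, ptr_assoc, ← BraidedCategory.braiding_naturality_left_assoc]
  simp

/-- Exchanging the last two factors around an operator which is contracted. -/
lemma ptr_sw_conj {M N : C} (x : M ⊗ N ⟶ M ⊗ N) :
    ptr (sw M N ≫ (x ▷ N) ≫ sw M N) = ptr x ▷ N := by
  rw [← ptr_braid_conj]
  congr 1
  have h1 : sw M N ≫ (β_ (M ⊗ N) N).hom = (β_ M N).hom ▷ N ≫ (α_ N M N).hom := by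
    rw [sw, BraidedCategory.braiding_tensor_left_hom]
    simp only [Category.assoc, Iso.inv_hom_id_assoc]
    rw [← MonoidalCategory.whiskerLeft_comp_assoc, SymmetricCategory.symmetry]
    simp
  have h2 : (β_ (M ⊗ N) N).inv ≫ sw M N = (α_ N M N).inv ≫ (β_ M N).inv ▷ N := by
    have e1 := congrArg (fun z => (β_ (M ⊗ N) N).inv ≫ sw M N ≫ z ≫
      (α_ N M N).inv ≫ (β_ M N).inv ▷ N) h1
    simp only [Category.assoc, Iso.hom_inv_id_assoc, reassoc_of% (sw_sw M N),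
      Iso.inv_hom_id_assoc] at e1
    rw [e1]
    simp
  rw [← h1, ← h2]
  simp only [Category.assoc]
  rw [← BraidedCategory.braiding_naturality_left_assoc]
  simp

end

section

variable {C : Type u} [Category.{v} C] [MonoidalCategory C] [SymmetricCategory C]
  [Preadditive C] [Linear ℚ C] [MonoidalPreadditive C] [MonoidalLinear ℚ C]
  [RightRigidCategory C]

/-- Contraction of the last factor, in the presence of a first factor `E`. -/
def PP {E X N : C} (x : E ⊗ (X ⊗ N) ⟶ E ⊗ (X ⊗ N)) : E ⊗ X ⟶ E ⊗ X :=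
  ptr ((α_ E X N).hom ≫ x ≫ (α_ E X N).inv)

lemma PP_add {E X N : C} (x y : E ⊗ (X ⊗ N) ⟶ E ⊗ (X ⊗ N)) : PP (x + y) = PP x + PP y := by
  rw [PP, Preadditive.add_comp, Preadditive.comp_add, ptr_add]
  rfl

lemma PP_smul {E X N : C} (c : ℚ) (x : E ⊗ (X ⊗ N) ⟶ E ⊗ (X ⊗ N)) :
    PP (c • x) = c • PP x := by
  rw [PP, Linear.smul_comp, Linear.comp_smul, ptr_smul]
  rfl

lemma PP_left {E X N : C} (y : X ⊗ N ⟶ X ⊗ N) : PP (E ◁ y) = E ◁ ptr y := ptr_assoc y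

lemma PP_eq {E X N : C} (x : E ⊗ (X ⊗ N) ⟶ E ⊗ (X ⊗ N)) : PP x =
    (E ◁ ((ρ_ X).inv ≫ X ◁ η_ N Nᘁ ≫ (α_ X N Nᘁ).inv)) ≫
      ((α_ E (X ⊗ N) Nᘁ).inv ≫ (x ▷ Nᘁ) ≫ (α_ E (X ⊗ N) Nᘁ).hom) ≫
      (E ◁ ((α_ X N Nᘁ).hom ≫ X ◁ ((β_ N Nᘁ).hom ≫ ε_ N Nᘁ) ≫ (ρ_ X).hom)) := by
  simp only [PP, ptr]
  monoidal

lemma Blk.contract {E X N : C} {n : ℕ} {a a' : tp E n ⟶ tp E n}
    {x : E ⊗ (X ⊗ N) ⟶ E ⊗ (X ⊗ N)} (h : Blk a a' x) : Blk a a' (PP x) := by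
  rw [PP_eq]
  exact (h.whisker _).comp _ _

/-- Adding a factor and (anti)symmetrizing. -/
noncomputable def II (η : ℚ) {E : C} {k : ℕ} (x : E ⊗ tp E k ⟶ E ⊗ tp E k) :
    E ⊗ tp E (k + 1) ⟶ E ⊗ tp E (k + 1) :=
  (E ◁ asym η E (k + 1)) ≫ (α_ E (tp E k) E).inv ≫ (x ▷ E) ≫ (α_ E (tp E k) E).hom ≫
    (E ◁ asym η E (k + 1))

lemma II_add (η : ℚ) {E : C} {k : ℕ} (x y : E ⊗ tp E k ⟶ E ⊗ tp E k) :
    II η (x + y) = II η x + II η y := by
  simp only [II, MonoidalPreadditive.add_whiskerRight, Preadditive.add_comp, Preadditive.comp_add]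

lemma II_smul (η : ℚ) {E : C} {k : ℕ} (c : ℚ) (x : E ⊗ tp E k ⟶ E ⊗ tp E k) :
    II η (c • x) = c • II η x := by
  simp only [II, MonoidalLinear.smul_whiskerRight, Linear.smul_comp, Linear.comp_smul]

lemma II_asym {η : ℚ} (hη : η * η = 1) (E : C) (k : ℕ) :
    II η (E ◁ asym η E k) = E ◁ asym η E (k + 1) := by
  have h1 : (α_ E (tp E k) E).inv ≫ ((E ◁ asym η E k) ▷ E) ≫ (α_ E (tp E k) E).hom =
      E ◁ (asym η E k ▷ E) := by simp
  rw [II, reassoc_of% h1, ← MonoidalCategory.whiskerLeft_comp,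
    ← MonoidalCategory.whiskerLeft_comp, (absorb hη E k).1, asym_idem hη]

lemma II_absorb {η : ℚ} (hη : η * η = 1) {E : C} {k : ℕ} (x : E ⊗ tp E k ⟶ E ⊗ tp E k) :
    (E ◁ asym η E (k + 1)) ≫ II η x = II η x ∧ II η x ≫ (E ◁ asym η E (k + 1)) = II η x := by
  have h1 : (E ◁ asym η E (k + 1)) ≫ (E ◁ asym η E (k + 1)) = E ◁ asym η E (k + 1) := by
    rw [← MonoidalCategory.whiskerLeft_comp, asym_idem hη]
  constructor
  · rw [II, reassoc_of% h1]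
  · rw [II]
    simp only [Category.assoc, h1]

lemma sw_assoc (E U : C) : sw (E ⊗ U) E ≫ ((α_ E U E).hom ▷ E) = ((α_ E U E).hom ▷ E) ≫
    ((α_ E (U ⊗ E) E).hom ≫ (E ◁ sw U E) ≫ (α_ E (U ⊗ E) E).inv) := by
  simp only [sw]
  monoidal

/-- The contraction of an exchange of the last two factors around an operator. -/
lemma ptr_exch {E U : C} (x : E ⊗ (U ⊗ E) ⟶ E ⊗ (U ⊗ E)) :
    ptr (((α_ E (U ⊗ E) E).hom ≫ (E ◁ sw U E) ≫ (α_ E (U ⊗ E) E).inv) ≫ (x ▷ E) ≫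
      ((α_ E (U ⊗ E) E).hom ≫ (E ◁ sw U E) ≫ (α_ E (U ⊗ E) E).inv)) =
    (α_ E U E).inv ≫ (PP x ▷ E) ≫ (α_ E U E).hom := by
  set t := (α_ E (U ⊗ E) E).hom ≫ (E ◁ sw U E) ≫ (α_ E (U ⊗ E) E).inv with ht
  have h1 := sw_assoc E U
  rw [← ht] at h1
  have h2 : t = ((α_ E U E).inv ▷ E) ≫ sw (E ⊗ U) E ≫ ((α_ E U E).hom ▷ E) := by
    rw [h1, ← Category.assoc, ← comp_whiskerRight, Iso.inv_hom_id]
    simp
  have h3 : t ≫ (x ▷ E) ≫ t = ((α_ E U E).inv ▷ E) ≫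
      (sw (E ⊗ U) E ≫ (((α_ E U E).hom ≫ x ≫ (α_ E U E).inv) ▷ E) ≫ sw (E ⊗ U) E) ≫
        ((α_ E U E).hom ▷ E) := by
    rw [h2]
    simp only [comp_whiskerRight, Category.assoc]
  rw [h3, ptr_comp', ptr_sw_conj]
  rfl

/-- The contraction of `II x`. -/
lemma PP_II {η : ℚ} (hη : η * η = 1) {E : C} {δ : ℚ} (ht : tr (𝟙 E) = δ • 𝟙 _) (k : ℕ)
    (x : E ⊗ tp E (k + 1) ⟶ E ⊗ tp E (k + 1)) (hx1 : (E ◁ asym η E (k + 1)) ≫ x = x)
    (hx2 : x ≫ (E ◁ asym η E (k + 1)) = x) :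
    PP (II η x) = ((((k + 1 : ℕ) : ℚ) + 1)⁻¹ * (((k + 1 : ℕ) : ℚ) + 1)⁻¹) •
      ((δ + 2 * (η * ((k + 1 : ℕ) : ℚ))) • x +
        (((k + 1 : ℕ) : ℚ) * ((k + 1 : ℕ) : ℚ)) • II η (PP x)) := by
  set c : ℚ := ((k + 1 : ℕ) : ℚ) with hc
  set B := (E ◁ asym η E (k + 1)) ▷ E with hB
  set t := (α_ E (tp E (k + 1)) E).hom ≫ (E ◁ sw (tp E k) E) ≫ (α_ E (tp E (k + 1)) E).inv
    with htt
  have hA : (α_ E (tp E (k + 1)) E).hom ≫ (E ◁ asym η E (k + 2)) ≫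
      (α_ E (tp E (k + 1)) E).inv = (c + 1)⁻¹ • (B + (η * c) • (B ≫ t ≫ B)) := by
    have e1 : (α_ E (tp E (k + 1)) E).hom ≫ (E ◁ (asym η E (k + 1) ▷ E)) =
        B ≫ (α_ E (tp E (k + 1)) E).hom := by
      rw [hB, associator_naturality_middle]
    have e2 : (E ◁ (asym η E (k + 1) ▷ E)) ≫ (α_ E (tp E (k + 1)) E).inv =
        (α_ E (tp E (k + 1)) E).inv ≫ B := by
      rw [hB, associator_inv_naturality_middle]
    rw [asym_succ, MonoidalLinear.whiskerLeft_smul, MonoidalPreadditive.whiskerLeft_add,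
      MonoidalLinear.whiskerLeft_smul, MonoidalCategory.whiskerLeft_comp,
      MonoidalCategory.whiskerLeft_comp, Linear.smul_comp, Linear.comp_smul,
      Preadditive.add_comp, Preadditive.comp_add, Linear.smul_comp, Linear.comp_smul]
    simp only [Category.assoc]
    rw [e2, reassoc_of% e1, Iso.hom_inv_id_assoc, htt]
    simp only [Category.assoc]
    rfl
  have hBB : B ≫ (x ▷ E) = x ▷ E := by rw [hB, ← comp_whiskerRight, hx1]
  have hBB' : (x ▷ E) ≫ B = x ▷ E := by rw [hB, ← comp_whiskerRight, hx2]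
  have h1 : (α_ E (tp E (k + 1)) E).hom ≫ II η x ≫ (α_ E (tp E (k + 1)) E).inv =
      ((c + 1)⁻¹ * (c + 1)⁻¹) • ((x ▷ E) + (η * c) • ((x ▷ E) ≫ t ≫ B) +
        ((η * c) • (B ≫ t ≫ (x ▷ E)) + (c * c) • (B ≫ (t ≫ (x ▷ E) ≫ t) ≫ B))) := by
    have e1 : (α_ E (tp E (k + 1)) E).hom ≫ II η x ≫ (α_ E (tp E (k + 1)) E).inv =
        ((α_ E (tp E (k + 1)) E).hom ≫ (E ◁ asym η E (k + 2)) ≫
      (α_ E (tp E (k + 1)) E).inv) ≫ (x ▷ E) ≫ ((α_ E (tp E (k + 1)) E).hom ≫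
        (E ◁ asym η E (k + 2)) ≫ (α_ E (tp E (k + 1)) E).inv) := by
      rw [II]
      simp only [Category.assoc]
    have e3 : (η * c) * (η * c) = c * c := by linear_combination (c * c) * hη
    rw [e1, hA, Linear.smul_comp, Linear.comp_smul, Linear.comp_smul, smul_smul]
    congr 1
    simp only [Preadditive.add_comp, Preadditive.comp_add, Linear.comp_smul, Linear.smul_comp,
      Category.assoc, hBB, hBB', reassoc_of% hBB, reassoc_of% hBB', smul_add, smul_smul, e3]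
    abel
  have hptrt : ptr t = 𝟙 _ := by
    rw [htt, ptr_assoc, ptr_sw]
    simp
  have p1 : ptr (x ▷ E) = δ • x := by
    have := ptr_tensor x (𝟙 E) δ ht
    rwa [tensorHom_id] at this
  have p2 : ptr ((x ▷ E) ≫ t ≫ B) = x := by
    rw [hB, ptr_comp, hptrt, Category.id_comp, hx2]
  have p3 : ptr (B ≫ t ≫ (x ▷ E)) = x := by
    rw [hB, ptr_comp, hptrt, Category.id_comp, hx1]
  have p4 : ptr (B ≫ (t ≫ (x ▷ E) ≫ t) ≫ B) = II η (PP x) := by
    rw [hB, ptr_comp, htt, ptr_exch, II]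
    simp only [Category.assoc]
  rw [PP, h1, ptr_smul, ptr_add, ptr_add, ptr_add, ptr_smul, ptr_smul, ptr_smul, p1, p2, p3, p4]
  congr 1
  module

end

end Pool.Agent.K3h8.KS
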